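import Mathlib

/-!
# Monodromy operators and generalised eigenspaces of the Frobenius: linear algebra
-/

set_option autoImplicit false

namespace Pool.Agent.N522.LT

open Module

section Lin

variable {V : Type} [AddCommGroup V] [Module ℂ V] {F N : End ℂ V} {q : ℂ}

theorem sub_pow_N (hq : q ≠ 0) (h : ∀ x, N (F x) = q • F (N x)) (α : ℂ) (k : ℕ) :
    ∀ x, ((F - (α / q) • (1 : End ℂ V)) ^ k) (N x) =
      (q⁻¹) ^ k • N (((F - α • (1 : End ℂ V)) ^ k) x) := by
  have h1 : ∀ x, (F - (α / q) • (1 : End ℂ V)) (N x) = q⁻¹ • N ((F - α • (1 : End ℂ V)) x) := by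
    intro x
    simp only [LinearMap.sub_apply, LinearMap.smul_apply, End.one_apply, map_sub, map_smul,
      smul_sub, h, smul_smul, inv_mul_cancel₀ hq, one_smul, div_eq_mul_inv, mul_comm]
  induction k with
  | zero => intro x; simp
  | succ k ih =>
    intro x
    rw [pow_succ (F - (α / q) • (1 : End ℂ V)) k, End.mul_apply, h1, map_smul, ih,
      pow_succ (F - α • (1 : End ℂ V)) k, End.mul_apply, smul_smul, pow_succ (q⁻¹) k, mul_comm]

theorem N_gen (hq : q ≠ 0) (h : ∀ x, N (F x) = q • F (N x)) {α : ℂ} {x : V}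
    (hx : x ∈ F.maxGenEigenspace α) : N x ∈ F.maxGenEigenspace (α / q) := by
  rw [End.mem_maxGenEigenspace] at hx ⊢
  obtain ⟨k, hk⟩ := hx
  exact ⟨k, by rw [sub_pow_N hq h, hk, map_zero, smul_zero]⟩

theorem Npow_gen (hq : q ≠ 0) (h : ∀ x, N (F x) = q • F (N x)) (t : ℕ) {α : ℂ} {x : V}
    (hx : x ∈ F.maxGenEigenspace α) : (N ^ t) x ∈ F.maxGenEigenspace (α / q ^ t) := by
  induction t with
  | zero => simpa using hx
  | succ t ih =>
    rw [pow_succ' N t, End.mul_apply, pow_succ q t, ← div_div]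
    exact N_gen hq h ih

variable [FiniteDimensional ℂ V]

theorem lift_gen (hq : q ≠ 0) (h : ∀ x, N (F x) = q • F (N x)) {t : ℕ} {α : ℂ} {x y : V}
    (hx : x ∈ F.maxGenEigenspace (α / q ^ t)) (hy : (N ^ t) y = x) :
    ∃ y' ∈ F.maxGenEigenspace α, (N ^ t) y' = x := by
  have key : ∀ y : V, ∃ y' ∈ F.maxGenEigenspace α,
      (N ^ t) y - (N ^ t) y' ∈ ⨆ γ, ⨆ (_ : γ ≠ α / q ^ t), F.maxGenEigenspace γ := by
    intro y
    have hy : y ∈ ⨆ β, F.maxGenEigenspace β := by
      rw [End.iSup_maxGenEigenspace_eq_top]; trivial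
    induction hy using Submodule.iSup_induction' with
    | mem β y hy =>
      by_cases hβ : β = α
      · subst hβ
        exact ⟨y, hy, by rw [sub_self]; exact Submodule.zero_mem _⟩
      · refine ⟨0, Submodule.zero_mem _, ?_⟩
        rw [map_zero, sub_zero]
        have h1 : β / q ^ t ≠ α / q ^ t := fun h' =>
          hβ (by field_simp at h'; exact h')
        exact Submodule.mem_iSup_of_mem (β / q ^ t)
          (Submodule.mem_iSup_of_mem h1 (Npow_gen hq h t hy))
    | zero => exact ⟨0, Submodule.zero_mem _, by simp⟩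
    | add y z _ _ ihy ihz =>
      obtain ⟨y', h1, h2⟩ := ihy
      obtain ⟨z', h3, h4⟩ := ihz
      refine ⟨y' + z', Submodule.add_mem _ h1 h3, ?_⟩
      have : (N ^ t) (y + z) - (N ^ t) (y' + z') =
          ((N ^ t) y - (N ^ t) y') + ((N ^ t) z - (N ^ t) z') := by
        rw [map_add, map_add]; abel
      rw [this]
      exact Submodule.add_mem _ h2 h4
  obtain ⟨y', h1, h2⟩ := key y
  refine ⟨y', h1, ?_⟩
  rw [hy] at h2
  have h3 : x - (N ^ t) y' ∈ F.maxGenEigenspace (α / q ^ t) :=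
    Submodule.sub_mem _ hx (Npow_gen hq h t h1)
  have h4 := (End.independent_maxGenEigenspace F) (α / q ^ t)
  have h5 := (Submodule.disjoint_def.1 h4) _ h3 h2
  exact (sub_eq_zero.1 h5).symm

omit [FiniteDimensional ℂ V] in
theorem eigen_of_gen {β : ℂ} {x : V} (hx : x ∈ F.maxGenEigenspace β) (h0 : x ≠ 0) :
    F.HasEigenvalue β := by
  by_contra hβ
  have h1 : LinearMap.ker (F - β • (1 : End ℂ V)) = ⊥ := by
    rw [End.HasEigenvalue, End.HasUnifEigenvalue, not_not] at hβ
    rw [← End.eigenspace_def]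
    exact hβ
  rw [End.mem_maxGenEigenspace] at hx
  obtain ⟨k, hk⟩ := hx
  have h2 : Function.Injective (F - β • (1 : End ℂ V)) := LinearMap.ker_eq_bot.1 h1
  have h3 : ∀ (k : ℕ) (x : V), ((F - β • (1 : End ℂ V)) ^ k) x = 0 → x = 0 := by
    intro k
    induction k with
    | zero => intro x hx; simpa using hx
    | succ k ih =>
      intro x hx
      rw [pow_succ, End.mul_apply] at hx
      exact h2 (by rw [ih _ hx, map_zero])
  exact h0 (h3 k x hk)

/-- Statement (A): elements of weight `m - t` killed by `N` are in the image of `N ^ t`. -/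
def PropA (F N : End ℂ V) (q m : ℕ) : Prop :=
  ∀ (t : ℕ) (α : ℂ) (x : V), ‖α‖ ^ 2 = (q : ℝ) ^ (m + t) →
    x ∈ F.maxGenEigenspace (α / (q : ℂ) ^ t) → N x = 0 → ∃ y, (N ^ t) y = x

/-- Statement (B): elements of weight `m + t` killed by `N ^ t` are in the image of `N`. -/
def PropB (F N : End ℂ V) (q m : ℕ) : Prop :=
  ∀ (t : ℕ) (α : ℂ) (x : V), ‖α‖ ^ 2 = (q : ℝ) ^ (m + t) →
    x ∈ F.maxGenEigenspace α → (N ^ t) x = 0 → ∃ y, N y = x

theorem exists_bound (hF : Function.Injective F) {q : ℕ} (hq : 1 < q) (m : ℕ) :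
    ∃ T : ℕ, ∀ t, T ≤ t → ∀ α : ℂ, ‖α‖ ^ 2 = (q : ℝ) ^ (m + t) →
      (∀ x ∈ F.maxGenEigenspace α, x = 0) ∧
        ∀ x ∈ F.maxGenEigenspace (α / (q : ℂ) ^ t), x = 0 := by
  have hq1 : (1 : ℝ) < q := by exact_mod_cast hq
  have hq0 : (0 : ℝ) < q := by positivity
  have hfin : Set.Finite (F.HasEigenvalue) := End.finite_hasEigenvalue F
  have h1 : ∀ β : ℂ, F.HasEigenvalue β → ∃ T : ℕ, ∀ t, T ≤ t →
      ‖β‖ ^ 2 < (q : ℝ) ^ t ∧ (q : ℝ) ^ m < ‖β‖ ^ 2 * (q : ℝ) ^ t := by
    intro β hβ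
    have hβ0 : β ≠ 0 := by
      rintro rfl
      obtain ⟨v, hv⟩ := hβ.exists_hasEigenvector
      have := hv.apply_eq_smul
      rw [zero_smul] at this
      exact hv.2 (hF (by rw [this, map_zero]))
    have hn : 0 < ‖β‖ ^ 2 := by positivity
    obtain ⟨a, ha⟩ := pow_unbounded_of_one_lt (‖β‖ ^ 2) hq1
    obtain ⟨b, hb⟩ := pow_unbounded_of_one_lt ((q : ℝ) ^ m / ‖β‖ ^ 2) hq1
    refine ⟨max a b, fun t ht => ⟨?_, ?_⟩⟩
    · exact ha.trans_le (pow_le_pow_right₀ hq1.le ((le_max_left a b).trans ht))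
    · rw [div_lt_iff₀ hn] at hb
      rw [mul_comm]
      exact hb.trans_le (mul_le_mul_of_nonneg_right
        (pow_le_pow_right₀ hq1.le ((le_max_right a b).trans ht)) hn.le)
  choose! T hT using h1
  obtain ⟨M, hM⟩ := (hfin.image T).bddAbove
  refine ⟨M, fun t ht α hα => ⟨fun x hx => ?_, fun x hx => ?_⟩⟩
  · by_contra h0
    have hβ := eigen_of_gen hx h0
    have h2 := (hT α hβ t ((hM ⟨α, hβ, rfl⟩).trans ht)).1
    rw [hα] at h2
    exact absurd h2 (not_lt.2 (pow_le_pow_right₀ hq1.le (by omega)))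
  · by_contra h0
    have hβ := eigen_of_gen hx h0
    have h2 := (hT _ hβ t ((hM ⟨_, hβ, rfl⟩).trans ht)).2
    have h3 : ‖α / (q : ℂ) ^ t‖ ^ 2 * (q : ℝ) ^ t = (q : ℝ) ^ m := by
      rw [norm_div, norm_pow, Complex.norm_natCast, div_pow, hα, pow_add]
      field_simp
    rw [h3] at h2
    exact lt_irrefl _ h2

/-- The monodromy filtration is the weight filtration. -/
def PropMW (F N : End ℂ V) (q m : ℕ) : Prop :=
  ∀ (t : ℕ) (α : ℂ), ‖α‖ ^ 2 = (q : ℝ) ^ (m + t) →
    Set.BijOn (N ^ t) (F.maxGenEigenspace α) (F.maxGenEigenspace (α / (q : ℂ) ^ t))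

theorem mw_of_AB {q m : ℕ} (hq : 1 < q) (hF : Function.Injective F)
    (h : ∀ x, N (F x) = (q : ℂ) • F (N x)) (hA : PropA F N q m) (hB : PropB F N q m) :
    PropMW F N q m := by
  have hq0 : (q : ℂ) ≠ 0 := by exact_mod_cast (by omega : q ≠ 0)
  have hqr : (0 : ℝ) < q := by exact_mod_cast (by omega : 0 < q)
  obtain ⟨T, hT⟩ := exists_bound (V := V) hF hq m
  have key : ∀ n t, T ≤ t + n → ∀ α : ℂ, ‖α‖ ^ 2 = (q : ℝ) ^ (m + t) →
      (∀ x ∈ F.maxGenEigenspace α, (N ^ t) x = 0 → x = 0) ∧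
      ∀ z ∈ F.maxGenEigenspace (α / (q : ℂ) ^ t), ∃ y ∈ F.maxGenEigenspace α, (N ^ t) y = z := by
    intro n
    induction n with
    | zero =>
      intro t ht α hα
      obtain ⟨h1, h2⟩ := hT t (by omega) α hα
      exact ⟨fun x hx _ => h1 x hx, fun z hz => ⟨0, Submodule.zero_mem _, by
        rw [map_zero, h2 z hz]⟩⟩
    | succ n ih =>
      intro t ht α hα
      have hα' : ‖α * (q : ℂ)‖ ^ 2 = (q : ℝ) ^ (m + (t + 2)) := by
        rw [norm_mul, Complex.norm_natCast, mul_pow, hα]; ring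
      obtain ⟨i1, i2⟩ := ih (t + 2) (by omega) (α * q) hα'
      refine ⟨fun x hx h0 => ?_, fun z hz => ?_⟩
      · obtain ⟨y, hy⟩ := hB t α x hα hx h0
        have e1 : α * (q : ℂ) / (q : ℂ) ^ 1 = α := by field_simp
        obtain ⟨y', hy', hy2⟩ := lift_gen (t := 1) (α := α * q) (x := x) (y := y) hq0 h
          (by rw [e1]; exact hx) (by rw [pow_one]; exact hy)
        rw [pow_one] at hy2
        have e2 : (N ^ (t + 2)) y' = 0 := by
          have : (N ^ (t + 2)) y' = N ((N ^ t) (N y')) := by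
            rw [show t + 2 = 1 + (t + 1) by omega, pow_add, pow_one, End.mul_apply, pow_succ,
              End.mul_apply]
          rw [this, hy2, h0, map_zero]
        rw [← hy2, i1 y' hy' e2, map_zero]
      · have e3 : α / (q : ℂ) ^ t / (q : ℂ) = α * (q : ℂ) / (q : ℂ) ^ (t + 2) := by
          rw [div_div, ← pow_succ, div_eq_div_iff (pow_ne_zero _ hq0) (pow_ne_zero _ hq0)]
          ring
        have hz1 : N z ∈ F.maxGenEigenspace (α * (q : ℂ) / (q : ℂ) ^ (t + 2)) := by
          rw [← e3]; exact N_gen hq0 h hz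
        obtain ⟨y, hy, hy2⟩ := i2 (N z) hz1
        have hy3 : (N ^ (t + 1)) y ∈ F.maxGenEigenspace (α / (q : ℂ) ^ t) := by
          have := Npow_gen hq0 h (t + 1) hy
          have e4 : α * (q : ℂ) / (q : ℂ) ^ (t + 1) = α / (q : ℂ) ^ t := by
            rw [pow_add]
            field_simp
          rwa [e4] at this
        have h5 : N (z - (N ^ (t + 1)) y) = 0 := by
          rw [map_sub, ← End.mul_apply, ← pow_succ', hy2, sub_self]
        obtain ⟨w, hw⟩ := hA t α _ hα (Submodule.sub_mem _ hz hy3) h5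
        obtain ⟨w', hw', hw2⟩ := lift_gen hq0 h (Submodule.sub_mem _ hz hy3) hw
        have hNy : N y ∈ F.maxGenEigenspace α := by
          have := N_gen hq0 h hy
          rwa [mul_div_assoc, div_self hq0, mul_one] at this
        refine ⟨w' + N y, Submodule.add_mem _ hw' hNy, ?_⟩
        rw [map_add, hw2, pow_succ, End.mul_apply, sub_add_cancel]
  intro t α hα
  obtain ⟨k1, k2⟩ := key T t (by omega) α hα
  refine ⟨fun x hx => Npow_gen hq0 h t hx, fun x hx y hy hxy => ?_, fun z hz => ?_⟩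
  · exact sub_eq_zero.1 (k1 _ (Submodule.sub_mem _ hx hy) (by rw [map_sub]; exact sub_eq_zero.2 hxy))
  · obtain ⟨y, hy, hy2⟩ := k2 z hz
    exact ⟨y, hy, hy2⟩

end Lin

section Pairing

variable {V W : Type} [AddCommGroup V] [Module ℂ V] [AddCommGroup W] [Module ℂ W]

theorem pairing_gen (B : V →ₗ[ℂ] W →ₗ[ℂ] ℂ) {F : End ℂ V} {G : End ℂ W} {c : ℂ}
    (hB : ∀ x y, B (F x) (G y) = c * B x y) {α β : ℂ} (hc : α * β ≠ c) :
    ∀ (n k l : ℕ), k + l ≤ n → ∀ x y, ((F - α • (1 : End ℂ V)) ^ k) x = 0 →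
      ((G - β • (1 : End ℂ W)) ^ l) y = 0 → B x y = 0 := by
  intro n
  induction n with
  | zero =>
    intro k l hkl x y hx _
    have : k = 0 := by omega
    subst this
    have : x = 0 := by simpa using hx
    rw [this, map_zero, LinearMap.zero_apply]
  | succ n ih =>
    intro k l hkl x y hx hy
    rcases Nat.eq_zero_or_pos k with rfl | hk
    · have : x = 0 := by simpa using hx
      rw [this, map_zero, LinearMap.zero_apply]
    rcases Nat.eq_zero_or_pos l with rfl | hl
    · have : y = 0 := by simpa using hy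
      rw [this, map_zero]
    obtain ⟨k, rfl⟩ := Nat.exists_eq_succ_of_ne_zero hk.ne'
    obtain ⟨l, rfl⟩ := Nat.exists_eq_succ_of_ne_zero hl.ne'
    set x1 := (F - α • (1 : End ℂ V)) x with hx1
    set y1 := (G - β • (1 : End ℂ W)) y with hy1
    have hx' : ((F - α • (1 : End ℂ V)) ^ k) x1 = 0 := by
      rw [hx1, ← End.mul_apply, ← pow_succ]; exact hx
    have hy' : ((G - β • (1 : End ℂ W)) ^ l) y1 = 0 := by
      rw [hy1, ← End.mul_apply, ← pow_succ]; exact hy
    have e1 : F x = α • x + x1 := by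
      rw [hx1, LinearMap.sub_apply, LinearMap.smul_apply, End.one_apply]; abel
    have e2 : G y = β • y + y1 := by
      rw [hy1, LinearMap.sub_apply, LinearMap.smul_apply, End.one_apply]; abel
    have h1 := ih k (l + 1) (by omega) x1 y hx' hy
    have h2 := ih (k + 1) l (by omega) x y1 hx hy'
    have h3 := ih k l (by omega) x1 y1 hx' hy'
    have h4 := hB x y
    rw [e1, e2] at h4
    simp only [map_add, LinearMap.add_apply, map_smul, LinearMap.smul_apply, smul_eq_mul, h1, h2,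
      h3, mul_zero, add_zero] at h4
    have h5 : (α * β - c) * B x y = 0 := by
      have : (α * β - c) * B x y = α * (β * B x y) - c * B x y := by ring
      rw [this]
      first
      | exact sub_eq_zero.2 h4
      | (rw [sub_eq_zero]; linear_combination h4)
    exact (mul_eq_zero.1 h5).resolve_left (sub_ne_zero.2 hc)

variable [FiniteDimensional ℂ W]

theorem propB_of_dual {F N : End ℂ V} {G M : End ℂ W} {q m m' d : ℕ} (hq : 1 < q)
    (hmm : m + m' = 2 * d) (B : V →ₗ[ℂ] W →ₗ[ℂ] ℂ)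
    (hperf : Function.Bijective B.flip)
    (hB : ∀ x y, B (F x) (G y) = (q : ℂ) ^ d * B x y) (hN : ∀ x y, B (N x) y = - B x (M y))
    (hMG : ∀ y, M (G y) = (q : ℂ) • G (M y)) (hA : PropA G M q m') : PropB F N q m := by
  intro t α x hα hx h0
  have hq0 : (q : ℂ) ≠ 0 := by exact_mod_cast (by omega : q ≠ 0)
  have hqr : (0 : ℝ) < q := by exact_mod_cast (by omega : 0 < q)
  have hα0 : α ≠ 0 := by
    rintro rfl
    rw [norm_zero, zero_pow two_ne_zero] at hα
    exact (pow_pos hqr (m + t)).ne hα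
  have hNt : ∀ (t : ℕ) x y, B ((N ^ t) x) y = (-1) ^ t * B x ((M ^ t) y) := by
    intro t
    induction t with
    | zero => intro x y; simp
    | succ t ih =>
      intro x y
      rw [pow_succ, End.mul_apply, ih, hN, pow_succ' M, End.mul_apply]
      ring
  -- `B x` vanishes on the kernel of `M`
  have key : ∀ y ∈ LinearMap.ker M, B x y = 0 := by
    have hinv : ∀ y ∈ LinearMap.ker M, G y ∈ LinearMap.ker M := by
      intro y hy
      rw [LinearMap.mem_ker] at hy ⊢
      rw [hMG, hy, map_zero, smul_zero]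
    intro y hy0
    have h1 : y ∈ ⨆ β, LinearMap.ker M ⊓ G.genEigenspace β ⊤ := by
      rw [← Submodule.inf_iSup_genEigenspace hinv]
      refine ⟨hy0, ?_⟩
      have := End.iSup_maxGenEigenspace_eq_top G
      change y ∈ ⨆ β, G.maxGenEigenspace β
      rw [this]; trivial
    clear hy0
    induction h1 using Submodule.iSup_induction' with
    | mem β y hy =>
      have hy1 : M y = 0 := LinearMap.mem_ker.1 hy.1
      have hy2 : y ∈ G.maxGenEigenspace β := hy.2
      by_cases hc : α * β = (q : ℂ) ^ d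
      · have hn : ‖β * (q : ℂ) ^ t‖ ^ 2 = (q : ℝ) ^ (m' + t) := by
          have h2 : ‖α‖ ^ 2 * ‖β‖ ^ 2 = (q : ℝ) ^ (2 * d) := by
            rw [← mul_pow, ← norm_mul, hc, norm_pow, Complex.norm_natCast, ← pow_mul, mul_comm]
          rw [hα, ← hmm] at h2
          rw [norm_mul, norm_pow, Complex.norm_natCast, mul_pow]
          have h3 : (q : ℝ) ^ (m + t) * (‖β‖ ^ 2 * ((q : ℝ) ^ t) ^ 2) =
              (q : ℝ) ^ (m + t) * (q : ℝ) ^ (m' + t) := by
            rw [← mul_assoc, h2]; ring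
          exact mul_left_cancel₀ (pow_pos hqr (m + t)).ne' h3
        have hy3 : y ∈ G.maxGenEigenspace (β * (q : ℂ) ^ t / (q : ℂ) ^ t) := by
          rwa [mul_div_assoc, div_self (pow_ne_zero t hq0), mul_one]
        obtain ⟨z, hz⟩ := hA t _ y hn hy3 hy1
        have h4 := hNt t x z
        rw [h0, map_zero, LinearMap.zero_apply, hz] at h4
        exact (mul_eq_zero.1 h4.symm).resolve_left (pow_ne_zero t (by norm_num))
      · rw [End.mem_maxGenEigenspace] at hx hy2
        obtain ⟨k, hk⟩ := hx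
        obtain ⟨l, hl⟩ := hy2
        exact pairing_gen B hB hc (k + l) k l le_rfl x y hk hl
    | zero => exact map_zero _
    | add y z _ _ h1 h2 => rw [map_add, h1, h2, add_zero]
  by_contra hne
  have h1 : x ∉ LinearMap.range N := fun ⟨y, hy⟩ => hne ⟨y, hy⟩
  obtain ⟨f, hf, hf2⟩ := Submodule.exists_le_ker_of_notMem h1
  obtain ⟨y, hy⟩ := hperf.2 f
  have h2 : M y = 0 := by
    refine hperf.1 ?_
    rw [map_zero]
    ext x'
    have h3 : B (N x') y = 0 := by
      have : (B.flip y) (N x') = 0 := by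
        rw [hy]
        exact hf2 (LinearMap.mem_range_self N x')
      exact this
    rw [hN] at h3
    exact neg_eq_zero.1 h3
  refine hf ?_
  rw [← hy]
  exact key y h2

end Pairing

end Pool.Agent.N522.LT
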