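import Mathlib

/-!
# Log `ℓ`-adic cohomology over the standard log point of a finite field

`s` is the standard log point of the field `k` with `q` elements and `G` its log fundamental group.
Every object `X` is a projective, vertical, log smooth fs log scheme over `s`, with Zariski-local charts
and of pure dimension (every object of the problem is the disjoint union of such). The coefficients of
all `ℓ`-adic representations are extended to `ℂ` by a fixed isomorphism of an algebraic closure of `ℚ_ℓ`
with `ℂ`; the statements of the problem do not change under extension of the coefficients.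
-/

set_option autoImplicit false

namespace Pool.Agent.N522.LogT

open Module

noncomputable section

/-- A representation of `G`. By Grothendieck's monodromy theorem the action is given by three operators:
a geometric Frobenius `F`, the monodromy operator `N`, that is the logarithm of the unipotent part of the
action of a generator of the (tame) inertia group, and the semisimple part `s` of this action. -/
structure Rep where
  V : Type
  [grp : AddCommGroup V]
  [mod : Module ℂ V]
  F : End ℂ V
  N : End ℂ V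
  s : End ℂ V

attribute [instance] Rep.grp Rep.mod

/-- The relations between the three operators. -/
structure IsRep (q : ℕ) (A : Rep) : Prop where
  finite : FiniteDimensional ℂ A.V
  bijective : Function.Bijective A.F
  /-- `N F = q F N` -/
  monodromy : ∀ x, A.N (A.F x) = (q : ℂ) • A.F (A.N x)
  s_comm : ∀ x, A.s (A.N x) = A.N (A.s x)
  /-- `s F = F s ^ q` -/
  s_frob : ∀ x, A.s (A.F x) = A.F ((A.s ^ q) x)
  s_order : ∃ e, 0 < e ∧ e.Coprime q ∧ A.s ^ e = 1

/-- `v` is fixed by `G`. -/
def Inv (A : Rep) (v : A.V) : Prop := A.F v = v ∧ A.N v = 0 ∧ A.s v = v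

/-- `f` is `G`-equivariant. -/
def IsHom (A B : Rep) (f : A.V →ₗ[ℂ] B.V) : Prop :=
  (∀ x, f (A.F x) = B.F (f x)) ∧ (∀ x, f (A.N x) = B.N (f x)) ∧ ∀ x, f (A.s x) = B.s (f x)

/-- `A` and `B` are isomorphic. -/
def IsIso (A B : Rep) : Prop := ∃ θ : A.V ≃ₗ[ℂ] B.V, IsHom A B θ

/-- `A` is a direct summand of `B` with projection `p`. -/
def IsSummand (A B : Rep) (p : B.V →ₗ[ℂ] A.V) : Prop :=
  IsHom B A p ∧ ∃ i, IsHom A B i ∧ ∀ x, p (i x) = x

/-- The generalised eigenspace of the Frobenius for `α`. -/
def gen (A : Rep) (α : ℂ) : Submodule ℂ A.V := A.F.maxGenEigenspace α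

/-- The twist of `A` by the unramified character with value `c` at the geometric Frobenius; the Tate
twist `A(r)` is the case `c = q ^ (-r)`. -/
def tw (c : ℂ) (A : Rep) : Rep where
  V := A.V
  F := c • A.F
  N := A.N
  s := A.s

/-- The unramified character with value `c` at the geometric Frobenius. -/
def char (c : ℂ) : Rep where
  V := ℂ
  F := c • 1
  N := 0
  s := 1

/-- The operator `g ↦ b g a` on linear maps. -/
def conj (A B : Rep) (a : End ℂ A.V) (b : End ℂ B.V) : End ℂ (A.V →ₗ[ℂ] B.V) :=
  (LinearMap.lcomp ℂ B.V a) ∘ₗ (LinearMap.compRight ℂ b)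

/-- `Hom(A, B)`, with `F g = F g F⁻¹`, `N g = N g - g N`, `s g = s g s⁻¹`. -/
def hom (A B : Rep) : Rep where
  V := A.V →ₗ[ℂ] B.V
  F := conj A B (Ring.inverse A.F) B.F
  N := conj A B 1 B.N - conj A B A.N 1
  s := conj A B (Ring.inverse A.s) B.s

/-- `A` after a ramified extension `s' → s` of the log point, of degree `c`, after which inertia is
unipotent. -/
def ram (c : ℂ) (A : Rep) : Rep where
  V := A.V
  F := A.F
  N := c • A.N
  s := 1

/-- The direct sum of finitely many representations. -/
def sum {n : ℕ} (A : Fin n → Rep) : Rep where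
  V := ∀ l, (A l).V
  F := LinearMap.pi fun l => (A l).F ∘ₗ LinearMap.proj l
  N := LinearMap.pi fun l => (A l).N ∘ₗ LinearMap.proj l
  s := LinearMap.pi fun l => (A l).s ∘ₗ LinearMap.proj l

/-- The generalised eigenspace of the Frobenius of `B` for `α` is a subquotient of that of `A`. -/
def IsSubquotient (A B : Rep) (α : ℂ) : Prop :=
  ∃ (C : Submodule ℂ A.V) (π : A.V →ₗ[ℂ] B.V), C ≤ gen A α ∧
    (∀ c ∈ C, A.F c ∈ C ∧ π (A.F c) = B.F (π c)) ∧ gen B α ≤ C.map π

/-- The Frobenius of `Sym ^ t H^1(E)`, see `sym`. -/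
def symF (q t : ℕ) : End ℂ (Fin (t + 1) → ℂ) where
  toFun c i := (q : ℂ) ^ (i : ℕ) * c i
  map_add' c d := by ext i; simp only [Pi.add_apply]; ring
  map_smul' a c := by ext i; simp only [Pi.smul_apply, smul_eq_mul, RingHom.id_apply]; ring

/-- The monodromy operator of `Sym ^ t H^1(E)`: the derivation with `N e_2 = e_1`, `N e_1 = 0`, so that
`N (e_1 ^ (t - i) e_2 ^ i) = i e_1 ^ (t - i + 1) e_2 ^ (i - 1)`. -/
def symN (t : ℕ) : End ℂ (Fin (t + 1) → ℂ) where
  toFun c i := if h : (i : ℕ) + 1 < t + 1 then (((i : ℕ) : ℂ) + 1) * c ⟨i + 1, h⟩ else 0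
  map_add' c d := by
    ext i
    simp only [Pi.add_apply]
    split_ifs with h
    · ring
    · simp
  map_smul' a c := by
    ext i
    simp only [Pi.smul_apply, smul_eq_mul, RingHom.id_apply]
    split_ifs with h
    · ring
    · simp

/-- `Sym ^ t H^1(E)`, `E` the log Tate curve. Here `H^1(E)` has a basis `e_1`, `e_2` with `F e_1 = e_1`,
`F e_2 = q e_2`, `N e_1 = 0`, `N e_2 = e_1` and `s = 1`; the coordinates of an element of
`Sym ^ t H^1(E)` are those with respect to the basis `e_1 ^ (t - i) e_2 ^ i`, `i = 0, ..., t`, on which `F`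
is the multiplication by `q ^ i`. -/
def sym (q t : ℕ) : Rep where
  V := Fin (t + 1) → ℂ
  F := symF q t
  N := symN t
  s := 1

/-- The element `e_1 ^ t`. -/
def e1 (q t : ℕ) : (sym q t).V := (Pi.single 0 1 : Fin (t + 1) → ℂ)

/-- The value of an element of `Hom(A, B)` at `x`. -/
def app {A B : Rep} (g : (hom A B).V) (x : A.V) : B.V := (show A.V →ₗ[ℂ] B.V from g) x

/-- Data of log `ℓ`-adic cohomology and of algebraic classes. -/
structure LogTheory where
  /-- the number of elements of the finite field `k` -/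
  q : ℕ
  /-- the projective, vertical, log smooth fs log schemes over `s` with Zariski-local charts, of pure
  dimension -/
  Obj : Type
  /-- the cohomology groups `H^m(X)` -/
  H : Obj → ℕ → Rep
  /-- `Z` is constant of dimension `e`: it is `Z_0 × s` with `Z_0` smooth and projective over `k`, of
  pure dimension `e` -/
  IsConst : Obj → ℕ → Prop
  /-- the linear span of the Chern classes in `H^(2 j)(X)` of the elements of `gr^j K_{0, lim}(X)` -/
  Alg : ∀ X j, Submodule ℂ (H X (2 * j)).V
  /-- `X × E ^ t` for the log Tate curve `E` -/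
  powE : Obj → ℕ → Obj
  /-- the Künneth component `H^(m + t)(X × E ^ t) → Hom(Sym ^ t H^1(E), H^m(X))(-t)`, `m = 2 r + t` -/
  kap : ∀ X r t, (H (powE X t) (2 * (r + t))).V →ₗ[ℂ]
    (hom (sym q t) (tw ((q : ℂ) ^ t) (H X (2 * r + t)))).V

variable (T : LogTheory)

/-- `H^m(X)(r)`, `m = 2 r + t`. -/
def Hr (X : T.Obj) (r t : ℕ) : Rep := tw ((T.q : ℂ) ^ r)⁻¹ (T.H X (2 * r + t))

/-- The evaluation map `W = Hom_G(Sym ^ t H^1(E), H^m(X)(r)) → V = H^m(X)(r)^G` at `e_1 ^ t` is
surjective (`m = 2 r + t`). -/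
def EvSurjective (X : T.Obj) (r t : ℕ) : Prop :=
  ∀ v, Inv (Hr T X r t) v → ∃ f, IsHom (sym T.q t) (Hr T X r t) f ∧ f (e1 T.q t) = v

/-- The map `φ` on cohomology: the Künneth component, followed by the evaluation at `e_1 ^ t`. -/
def phi (X : T.Obj) (r t : ℕ) (ξ : (T.H (T.powE X t) (2 * (r + t))).V) : (Hr T X r t).V :=
  app (T.kap X r t ξ) (e1 T.q t)

/-- The statement of the problem for `X` and `m = 2 r + t`: the map `φ` is surjective. (For negative
`r` one has `V = 0`, as the weights of `H^m(X)` are not negative.) -/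
def PhiSurjective (X : T.Obj) (r t : ℕ) : Prop :=
  ∀ v, Inv (Hr T X r t) v → ∃ ξ ∈ T.Alg (T.powE X t) (r + t), phi T X r t ξ = v

/-- The log Tate conjecture for `X` in codimension `j`. -/
def LogTate (X : T.Obj) (j : ℕ) : Prop :=
  ∀ ξ, Inv (tw ((T.q : ℂ) ^ j)⁻¹ (T.H X (2 * j))) ξ → ξ ∈ T.Alg X j

/-- The weight-monodromy conjecture for `H^m(X)`: for all `t` the operator `N ^ t` is an isomorphism
of the part of weight `m + t` onto the part of weight `m - t`, that is, for all `α` of absolute value
`q ^ ((m + t) / 2)` an isomorphism of the generalised eigenspace of `F` for `α` onto that for `α / q ^ t`. -/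
def WeightMonodromy (X : T.Obj) (m : ℕ) : Prop :=
  ∀ (t : ℕ) (α : ℂ), ‖α‖ ^ 2 = (T.q : ℝ) ^ (m + t) →
    Set.BijOn ((T.H X m).N ^ t) (gen (T.H X m) α) (gen (T.H X m) (α / (T.q : ℂ) ^ t))

/-- The cohomology group `H^b(Z)` of a smooth projective scheme over `k` is unramified, and pure of
weight `b` (Deligne). -/
def IsPure (q b : ℕ) (A : Rep) : Prop :=
  A.N = 0 ∧ A.s = 1 ∧ ∀ α, A.F.HasEigenvalue α → ‖α‖ ^ 2 = (q : ℝ) ^ b

/-- The weight spectral sequence: each generalised eigenspace of the Frobenius on `H^m(X)` is a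
subquotient of a direct sum of generalised eigenspaces on groups `H^b(Z)(-i)`, with `Z` smooth and
projective over `k` (intersections of components of the special fibre). -/
def Strata : Prop :=
  ∀ X m α, ∃ (n : ℕ) (Z : Fin n → T.Obj) (e b i : Fin n → ℕ), (∀ l, T.IsConst (Z l) (e l)) ∧
    IsSubquotient (sum fun l => tw ((T.q : ℂ) ^ i l) (T.H (Z l) (b l))) (T.H X m) α

/-- The Künneth formula for `Y = X × Z`, `Z` constant of dimension `e`, and Poincaré duality for `Z`:
the representation `Hom(H^b(Z), H^m(X))(-e) = H^m(X) ⊗ H^(2 e - b)(Z)` is a direct summand of `H^n(Y)`,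
`n = m + 2 e - b`. -/
def Kunneth : Prop :=
  ∀ X Z e, T.IsConst Z e → ∃ Y, ∀ m b n, n + b = m + 2 * e →
    ∃ p, IsSummand (hom (T.H Z b) (tw ((T.q : ℂ) ^ e) (T.H X m))) (T.H Y n) p

/-- Poincaré duality: if `X` has dimension `d`, then `H^(m')(X)` is isomorphic to
`Hom(H^m(X), ℚ_ℓ(-d))` for `m + m' = 2 d`, and `H^m(X) = 0` for `m > 2 d`. -/
def Duality : Prop :=
  ∀ X, ∃ d, (∀ m, 2 * d < m → Subsingleton (T.H X m).V) ∧ ∀ m m', m + m' = 2 * d →
    IsIso (T.H X m') (hom (T.H X m) (char ((T.q : ℂ) ^ d)))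

/-- The properties of log `ℓ`-adic cohomology that are used; all of them are known. -/
structure IsLogTheory (T : LogTheory) : Prop where
  one_lt : 1 < T.q
  rep : ∀ X m, IsRep T.q (T.H X m)
  pure : ∀ Z e, T.IsConst Z e → ∀ b, IsPure T.q b (T.H Z b)
  /-- base change by a ramified covering `s' → s` of sufficiently divisible degree `c`, where `s'` is
  again isomorphic to `s` -/
  ramified : ∀ X, ∃ X', ∀ m, ∃ c, c ≠ 0 ∧ IsIso (T.H X' m) (ram c (T.H X m))
  strata : Strata T
  kunneth : Kunneth T
  duality : Duality T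
  /-- Chern classes are invariant -/
  alg_inv : ∀ X j ξ, ξ ∈ T.Alg X j → Inv (tw ((T.q : ℂ) ^ j)⁻¹ (T.H X (2 * j))) ξ
  /-- the Künneth component is the projection to a direct summand -/
  kap_summand : ∀ X r t, IsSummand (hom (sym T.q t) (tw ((T.q : ℂ) ^ t) (T.H X (2 * r + t))))
    (T.H (T.powE X t) (2 * (r + t))) (T.kap X r t)
  /-- for `t = 0` one has `X × E ^ 0 = X` -/
  phi_zero : ∀ X r, ∀ ξ ∈ T.Alg (T.powE X 0) (r + 0), phi T X r 0 ξ ∈ T.Alg X r

end

end Pool.Agent.N522.LogT
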