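import Pool.Agent.N522.LT.Main
import Pool.Agent.N522.LT.Theory

/-!
# Comparison of the two descriptions of log `ℓ`-adic cohomology
-/

set_option autoImplicit false

namespace Pool.Agent.N522.LogT

open Module

noncomputable section

/-- The data in terms of operators. -/
def toOld (T : LogTheory) : LT.LogTheory where
  q := T.q
  Obj := T.Obj
  H X m := (T.H X m).V
  F X m := (T.H X m).F
  N X m := (T.H X m).N
  s X m := (T.H X m).s
  IsConst := T.IsConst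
  Alg := T.Alg
  powE := T.powE
  kap X r t := T.kap X r t

theorem inverse_apply {V : Type} [AddCommGroup V] [Module ℂ V] {F : End ℂ V}
    (hF : Function.Bijective F) (x : V) : F (Ring.inverse F x) = x ∧ Ring.inverse F (F x) = x := by
  have hu : IsUnit F := (End.isUnit_iff F).2 hF
  constructor
  · rw [← End.mul_apply, Ring.mul_inverse_cancel _ hu, End.one_apply]
  · rw [← End.mul_apply, Ring.inverse_mul_cancel _ hu, End.one_apply]

theorem hom_F (A B : Rep) (hA : Function.Bijective A.F) (g g' : A.V →ₗ[ℂ] B.V)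
    (h : (hom A B).F g = g') (x : A.V) : g' (A.F x) = B.F (g x) := by
  subst h
  change B.F (g (Ring.inverse A.F (A.F x))) = _
  rw [(inverse_apply hA x).2]

theorem hom_F_eq (A B : Rep) (hA : Function.Bijective A.F) (g g' : A.V →ₗ[ℂ] B.V)
    (h : ∀ x, g' (A.F x) = B.F (g x)) : (hom A B).F g = g' := by
  refine LinearMap.ext fun x => ?_
  change B.F (g (Ring.inverse A.F x)) = g' x
  rw [← h, (inverse_apply hA x).1]

theorem hom_N (A B : Rep) (g : A.V →ₗ[ℂ] B.V) :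
    (hom A B).N g = B.N ∘ₗ g - g ∘ₗ A.N := rfl

theorem hom_N' (A B : Rep) (hA : A.N = 0) (g : A.V →ₗ[ℂ] B.V) :
    (hom A B).N g = B.N ∘ₗ g := by
  refine (hom_N A B g).trans ?_
  rw [hA, LinearMap.comp_zero, sub_zero]

theorem hom_s (A B : Rep) (hA : A.s = 1) (g : A.V →ₗ[ℂ] B.V) :
    (hom A B).s g = B.s ∘ₗ g := by
  refine LinearMap.ext fun x => ?_
  change B.s (g (Ring.inverse A.s x)) = B.s (g x)
  rw [hA, Ring.inverse_one, End.one_apply]

theorem pi_pow {ι : Type} {A : ι → Type} [∀ l, AddCommGroup (A l)] [∀ l, Module ℂ (A l)]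
    (φ : ∀ l, End ℂ (A l)) (α : ℂ) (k : ℕ) (c : ∀ l, A l) (l : ι) :
    ((LinearMap.pi (fun l => φ l ∘ₗ LinearMap.proj l) - α • (1 : End ℂ (∀ l, A l))) ^ k) c l =
      ((φ l - α • (1 : End ℂ (A l))) ^ k) (c l) := by
  induction k generalizing c with
  | zero => rfl
  | succ k ih =>
    rw [pow_succ, End.mul_apply, pow_succ, End.mul_apply, ih]
    rfl

theorem sym_bijective {q : ℕ} (hq : q ≠ 0) (t : ℕ) : Function.Bijective (sym q t).F := by
  have hq0 : (q : ℂ) ≠ 0 := by exact_mod_cast hq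
  constructor
  · intro c d hcd
    funext i
    have h : (q : ℂ) ^ (i : ℕ) * c i = (q : ℂ) ^ (i : ℕ) * d i := congrFun hcd i
    exact mul_left_cancel₀ (pow_ne_zero _ hq0) h
  · intro c
    refine ⟨fun i => ((q : ℂ) ^ (i : ℕ))⁻¹ * c i, ?_⟩
    funext i
    change (q : ℂ) ^ (i : ℕ) * (((q : ℂ) ^ (i : ℕ))⁻¹ * c i) = c i
    rw [← mul_assoc, mul_inv_cancel₀ (pow_ne_zero _ hq0), one_mul]

variable {T : LogTheory} (hT : IsLogTheory T)

include hT

theorem q_ne0 : (T.q : ℂ) ≠ 0 := by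
  have := hT.one_lt
  exact_mod_cast (by omega : T.q ≠ 0)

theorem tw_inv (j : ℕ) {A : Rep} (v : A.V) :
    Inv (tw ((T.q : ℂ) ^ j)⁻¹ A) v ↔ A.F v = (T.q : ℂ) ^ j • v ∧ A.N v = 0 ∧ A.s v = v := by
  have hq := pow_ne_zero j (q_ne0 hT)
  refine and_congr_left fun _ => ?_
  change ((T.q : ℂ) ^ j)⁻¹ • A.F v = v ↔ A.F v = (T.q : ℂ) ^ j • v
  constructor
  · intro h
    conv_rhs => rw [← h, smul_smul, mul_inv_cancel₀ hq, one_smul]
  · intro h
    rw [h, smul_smul, inv_mul_cancel₀ hq, one_smul]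

theorem isHom_iff (r t : ℕ) {A : Rep} (f : (Fin (t + 1) → ℂ) →ₗ[ℂ] A.V) :
    IsHom (sym T.q t) (tw ((T.q : ℂ) ^ r)⁻¹ A) f ↔
      ∀ c, A.F (f c) = (T.q : ℂ) ^ r • f (LT.symF T.q t c) ∧ A.N (f c) = f (LT.symN t c) ∧
        A.s (f c) = f c := by
  have hq := pow_ne_zero r (q_ne0 hT)
  constructor
  · rintro ⟨h1, h2, h3⟩ c
    refine ⟨?_, (h2 c).symm, (h3 c).symm⟩
    have h : f (LT.symF T.q t c) = ((T.q : ℂ) ^ r)⁻¹ • A.F (f c) := h1 c
    rw [h, smul_smul, mul_inv_cancel₀ hq, one_smul]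
  · intro h
    refine ⟨fun c => ?_, fun c => (h c).2.1.symm, fun c => (h c).2.2.symm⟩
    change f (LT.symF T.q t c) = ((T.q : ℂ) ^ r)⁻¹ • A.F (f c)
    rw [(h c).1, smul_smul, inv_mul_cancel₀ hq, one_smul]

theorem f_ramified : ∀ X, ∃ X', ∀ m, ∃ (θ : (T.H X' m).V ≃ₗ[ℂ] (T.H X m).V) (c : ℂ), c ≠ 0 ∧
    (∀ x, θ ((T.H X' m).F x) = (T.H X m).F (θ x)) ∧
    (∀ x, θ ((T.H X' m).N x) = c • (T.H X m).N (θ x)) ∧ (T.H X' m).s = 1 := by
  intro X
  obtain ⟨X', h⟩ := hT.ramified X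
  refine ⟨X', fun m => ?_⟩
  obtain ⟨c, hc, θ, h1, h2, h3⟩ := h m
  exact ⟨θ, c, hc, h1, h2, LinearMap.ext fun x => θ.injective (h3 x)⟩

theorem f_strata : ∀ X m α, ∃ (ι : Type) (_ : Fintype ι) (Z : ι → T.Obj) (e b i : ι → ℕ),
    (∀ l, T.IsConst (Z l) (e l)) ∧
      LT.IsSubquotient (fun l => (T.H (Z l) (b l)).V)
        (fun l => (T.q : ℂ) ^ i l • (T.H (Z l) (b l)).F) (T.H X m).F α := by
  intro X m α
  obtain ⟨n, Z, e, b, i, hZ, C, π, h1, h2, h3⟩ := hT.strata X m α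
  refine ⟨Fin n, inferInstance, Z, e, b, i, hZ, C, π.domRestrict C, ?_, ?_, ?_⟩
  · intro c hc l
    obtain ⟨k, hk⟩ := (End.mem_maxGenEigenspace _ _ _).1 (h1 hc)
    refine (End.mem_maxGenEigenspace _ _ _).2 ⟨k, ?_⟩
    exact (pi_pow (fun l => (T.q : ℂ) ^ i l • (T.H (Z l) (b l)).F) α k c l).symm.trans
      (congrFun hk l)
  · rintro ⟨c, hc⟩
    obtain ⟨h4, h5⟩ := h2 c hc
    exact ⟨⟨_, h4⟩, fun l => rfl, h5⟩
  · intro v hv
    obtain ⟨c, hc, hcv⟩ := h3 hv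
    exact ⟨⟨c, hc⟩, hcv⟩

theorem f_correspondences : ∀ X Z e, T.IsConst Z e → ∃ Y, ∀ m b n, n + b = m + 2 * e →
    ∃ (i : ((T.H Z b).V →ₗ[ℂ] (T.H X m).V) →ₗ[ℂ] (T.H Y n).V)
      (p : (T.H Y n).V →ₗ[ℂ] ((T.H Z b).V →ₗ[ℂ] (T.H X m).V)),
      (∀ g, p (i g) = g) ∧
      (∀ g g', (∀ z, g' ((T.H Z b).F z) = (T.q : ℂ) ^ e • (T.H X m).F (g z)) →
        (T.H Y n).F (i g) = i g') ∧
      (∀ g, (T.H Y n).N (i g) = i ((T.H X m).N ∘ₗ g)) ∧
      (∀ g, (T.H Y n).s (i g) = i ((T.H X m).s ∘ₗ g)) ∧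
      ∀ y, p ((T.H Y n).N y) = (T.H X m).N ∘ₗ p y := by
  intro X Z e hZ
  obtain ⟨Y, hY⟩ := hT.kunneth X Z e hZ
  refine ⟨Y, fun m b n hn => ?_⟩
  obtain ⟨p, ⟨p1, p2, p3⟩, i, ⟨i1, i2, i3⟩, hpi⟩ := hY m b n hn
  obtain ⟨z1, z2, z3⟩ := hT.pure Z e hZ b
  refine ⟨i, p, hpi, fun g g' h => ?_, fun g => ?_, fun g => ?_, fun y => ?_⟩
  · exact (i1 g).symm.trans (congrArg i
      (hom_F_eq (T.H Z b) (tw ((T.q : ℂ) ^ e) (T.H X m)) (hT.rep Z b).bijective g g' h))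
  · exact (i2 g).symm.trans (congrArg i
      (hom_N' (T.H Z b) (tw ((T.q : ℂ) ^ e) (T.H X m)) z1 g))
  · exact (i3 g).symm.trans (congrArg i
      (hom_s (T.H Z b) (tw ((T.q : ℂ) ^ e) (T.H X m)) z2 g))
  · exact (p2 y).trans (hom_N' (T.H Z b) (tw ((T.q : ℂ) ^ e) (T.H X m)) z1 (p y))

theorem f_duality : ∀ X, ∃ d, (∀ m, 2 * d < m → ∀ x : (T.H X m).V, x = 0) ∧
    ∀ m m', m + m' = 2 * d →
      ∃ B : (T.H X m).V →ₗ[ℂ] (T.H X m').V →ₗ[ℂ] ℂ, Function.Bijective B.flip ∧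
        (∀ x y, B ((T.H X m).F x) ((T.H X m').F y) = (T.q : ℂ) ^ d * B x y) ∧
        ∀ x y, B ((T.H X m).N x) y = - B x ((T.H X m').N y) := by
  intro X
  obtain ⟨d, hd, h⟩ := hT.duality X
  refine ⟨d, fun m hm x => ?_, fun m m' hmm => ?_⟩
  · have := hd m hm
    exact Subsingleton.elim _ _
  · obtain ⟨θ, h1, h2, h3⟩ := h m m' hmm
    let θ' : (T.H X m').V ≃ₗ[ℂ] ((T.H X m).V →ₗ[ℂ] ℂ) := θ
    refine ⟨θ'.toLinearMap.flip, ?_, fun x y => ?_, fun x y => ?_⟩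
    · rw [LinearMap.flip_flip]
      exact θ'.bijective
    · exact hom_F (T.H X m) (char ((T.q : ℂ) ^ d)) (hT.rep X m).bijective (θ' y)
        (θ' ((T.H X m').F y)) (h1 y).symm x
    · have h5 : θ' ((T.H X m').N y) x = 0 - θ' y ((T.H X m).N x) :=
        LinearMap.congr_fun (h2 y) x
      change θ' y ((T.H X m).N x) = - θ' ((T.H X m').N y) x
      rw [h5, zero_sub, neg_neg]

theorem f_kap_hom (X : T.Obj) (r t : ℕ) (ξ : (T.H (T.powE X t) (2 * (r + t))).V)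
    (hξ : Inv (tw ((T.q : ℂ) ^ (r + t))⁻¹ (T.H (T.powE X t) (2 * (r + t)))) ξ) :
    IsHom (sym T.q t) (tw ((T.q : ℂ) ^ r)⁻¹ (T.H X (2 * r + t))) (T.kap X r t ξ) := by
  obtain ⟨⟨p1, p2, p3⟩, -⟩ := hT.kap_summand X r t
  obtain ⟨x1, x2, x3⟩ := (tw_inv hT (r + t) ξ).1 hξ
  have hq := q_ne0 hT
  let k : (Fin (t + 1) → ℂ) →ₗ[ℂ] (T.H X (2 * r + t)).V := T.kap X r t ξ
  refine (isHom_iff hT r t k).2 fun c => ⟨?_, ?_, ?_⟩
  · have h4 := p1 ξ
    rw [x1, map_smul] at h4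
    have h5 : (T.q : ℂ) ^ (r + t) • k (LT.symF T.q t c) =
        (T.q : ℂ) ^ t • (T.H X (2 * r + t)).F (k c) :=
      hom_F (sym T.q t) (tw ((T.q : ℂ) ^ t) (T.H X (2 * r + t)))
        (sym_bijective (by have := hT.one_lt; omega) t) k ((T.q : ℂ) ^ (r + t) • k) h4.symm c
    have h8 : (T.q : ℂ) ^ t • ((T.q : ℂ) ^ r • k (LT.symF T.q t c)) =
        (T.q : ℂ) ^ t • (T.H X (2 * r + t)).F (k c) := by
      rw [smul_smul, ← pow_add, add_comm t r]
      exact h5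
    exact (smul_right_injective _ (pow_ne_zero t hq) h8).symm
  · have h4 := p2 ξ
    rw [x2, map_zero] at h4
    have h5 : (0 : (Fin (t + 1) → ℂ) →ₗ[ℂ] (T.H X (2 * r + t)).V) =
      (T.H X (2 * r + t)).N ∘ₗ k - k ∘ₗ LT.symN t := h4
    exact sub_eq_zero.1 (LinearMap.congr_fun h5 c).symm
  · have h4 := p3 ξ
    rw [x3] at h4
    have h5 : k = (T.H X (2 * r + t)).s ∘ₗ k :=
      h4.trans (hom_s (sym T.q t) (tw ((T.q : ℂ) ^ t) (T.H X (2 * r + t))) rfl k)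
    exact (LinearMap.congr_fun h5 c).symm

theorem f_kap_onto (X : T.Obj) (r t : ℕ) (f : (Fin (t + 1) → ℂ) →ₗ[ℂ] (T.H X (2 * r + t)).V)
    (hf : IsHom (sym T.q t) (tw ((T.q : ℂ) ^ r)⁻¹ (T.H X (2 * r + t))) f) :
    ∃ ξ, Inv (tw ((T.q : ℂ) ^ (r + t))⁻¹ (T.H (T.powE X t) (2 * (r + t)))) ξ ∧
      T.kap X r t ξ = f := by
  obtain ⟨-, i, ⟨i1, i2, i3⟩, hpi⟩ := hT.kap_summand X r t
  have hq := q_ne0 hT
  have hf := (isHom_iff hT r t f).1 hf
  refine ⟨i f, (tw_inv hT (r + t) (A := T.H (T.powE X t) (2 * (r + t))) (i f)).2 ⟨?_, ?_, ?_⟩,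
    hpi f⟩
  · have h6 := hom_F_eq (sym T.q t) (tw ((T.q : ℂ) ^ t) (T.H X (2 * r + t)))
        (sym_bijective (by have := hT.one_lt; omega) t) f ((T.q : ℂ) ^ (r + t) • f) (by
        intro c
        change (T.q : ℂ) ^ (r + t) • f (LT.symF T.q t c) =
          (T.q : ℂ) ^ t • (T.H X (2 * r + t)).F (f c)
        rw [(hf c).1, smul_smul, ← pow_add, add_comm t r])
    exact ((i1 f).symm.trans (congrArg i h6)).trans (map_smul i _ _)
  · have h5 : (hom (sym T.q t) (tw ((T.q : ℂ) ^ t) (T.H X (2 * r + t)))).N f = 0 :=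
      LinearMap.ext fun c => sub_eq_zero.2 (hf c).2.1
    exact ((i2 f).symm.trans (congrArg i h5)).trans (map_zero i)
  · have h5 : (hom (sym T.q t) (tw ((T.q : ℂ) ^ t) (T.H X (2 * r + t)))).s f = f :=
      (hom_s (sym T.q t) (tw ((T.q : ℂ) ^ t) (T.H X (2 * r + t))) rfl f).trans
        (LinearMap.ext fun c => (hf c).2.2)
    exact (i3 f).symm.trans (congrArg i h5)

theorem isLog : LT.IsLogTheory (toOld T) where
  one_lt := hT.one_lt
  finite X m := (hT.rep X m).finite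
  frob_bijective X m := (hT.rep X m).bijective
  monodromy X m := (hT.rep X m).monodromy
  s_comm X m := (hT.rep X m).s_comm
  s_frob X m := (hT.rep X m).s_frob
  s_order X m := (hT.rep X m).s_order
  ramified := f_ramified hT
  deligne Z e hZ b := (hT.pure Z e hZ b).2.2
  strata := f_strata hT
  correspondences := f_correspondences hT
  duality := f_duality hT
  alg_inv X j ξ hξ := (tw_inv hT j ξ).1 (hT.alg_inv X j ξ hξ)
  kap_hom X r t ξ hξ := (isHom_iff hT r t (A := T.H X (2 * r + t)) (T.kap X r t ξ)).1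
    (f_kap_hom hT X r t ξ ((tw_inv hT (r + t) (A := T.H (T.powE X t) (2 * (r + t))) ξ).2 hξ))
  kap_onto X r t f hf := by
    obtain ⟨ξ, h1, h2⟩ := f_kap_onto hT X r t f ((isHom_iff hT r t f).2 hf)
    exact ⟨ξ, (tw_inv hT (r + t) (A := T.H (T.powE X t) (2 * (r + t))) ξ).1 h1, h2⟩
  kap_zero := by
    rintro X r v ⟨ξ, hξ, rfl⟩
    exact hT.phi_zero X r ξ hξ

theorem ev_iff (X : T.Obj) (r t : ℕ) :
    EvSurjective T X r t ↔ LT.EvSurjective (toOld T) X r t := by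
  refine forall_congr' fun v => imp_congr (tw_inv hT r (A := T.H X (2 * r + t)) v) ?_
  exact exists_congr fun f => and_congr (isHom_iff hT r t (A := T.H X (2 * r + t)) f) Iff.rfl

theorem phi_iff (X : T.Obj) (r t : ℕ) :
    PhiSurjective T X r t ↔ LT.PhiSurjective (toOld T) X r t :=
  forall_congr' fun v => imp_congr (tw_inv hT r (A := T.H X (2 * r + t)) v) Iff.rfl

theorem tate_iff (X : T.Obj) (j : ℕ) : LogTate T X j ↔ LT.LogTate (toOld T) X j :=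
  forall_congr' fun v => imp_congr (tw_inv hT j (A := T.H X (2 * j)) v) Iff.rfl

theorem main :
    ((∀ X r t, EvSurjective T X r t) ↔ ∀ X m, WeightMonodromy T X m) ∧
    ((∀ X r t, PhiSurjective T X r t) ↔
      (∀ X j, LogTate T X j) ∧ ∀ X m, WeightMonodromy T X m) := by
  obtain ⟨h1, h2⟩ := LT.main (isLog hT)
  refine ⟨?_, ?_⟩
  · rw [show (∀ X r t, EvSurjective T X r t) ↔ ∀ X r t, LT.EvSurjective (toOld T) X r t from
      forall_congr' fun X => forall_congr' fun r => forall_congr' fun t => ev_iff hT X r t]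
    exact h1
  · rw [show (∀ X r t, PhiSurjective T X r t) ↔ ∀ X r t, LT.PhiSurjective (toOld T) X r t from
      forall_congr' fun X => forall_congr' fun r => forall_congr' fun t => phi_iff hT X r t,
      show (∀ X j, LogTate T X j) ↔ ∀ X j, LT.LogTate (toOld T) X j from
      forall_congr' fun X => forall_congr' fun j => tate_iff hT X j]
    exact h2

end

end Pool.Agent.N522.LogT
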