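import Mathlib

/-!
# Log `ℓ`-adic cohomology over the standard log point of a finite field: definitions

`s` is the standard log point of the field `k` with `q` elements and `G` its log fundamental group.
Every object `X` is a projective, vertical, log smooth fs log scheme over `s`, with Zariski-local charts
and of pure dimension (every object of the problem is the disjoint union of such). The coefficients of
all `ℓ`-adic representations are extended to `ℂ` by a fixed isomorphism of an algebraic closure of `ℚ_ℓ`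
with `ℂ`; the statements of the problem do not change under extension of the coefficients. By Grothendieck's monodromy theorem the action of `G` on
`H^m(X)` is given by three operators: a geometric Frobenius `F`, the monodromy operator `N`, that is the
logarithm of the unipotent part of the action of a generator of the (tame) inertia group, and the
semisimple part `s` of this action, which has finite order. One has `N F = q F N` and `s F = F s ^ q`. A
vector is fixed by `G` if and only if it is fixed by `F` and `s` and killed by `N`, and a linear map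
between such representations is `G`-equivariant if and only if it commutes with `F`, `N` and `s`. On the
Tate twist `H^m(X)(r)` the operator `F` is divided by `q ^ r`.
-/

set_option autoImplicit false

namespace Pool.Agent.N522.LT

open Module

noncomputable section

/-- The Frobenius of `Sym ^ t H^1(E)`, `E` the log Tate curve. Here `H^1(E)` has a basis `e_1`, `e_2` with
`F e_1 = e_1`, `F e_2 = q e_2`, `N e_1 = 0`, `N e_2 = e_1`, `s = 1`; the coordinates of an element of
`Sym ^ t H^1(E)` are those with respect to the basis `e_1 ^ (t - i) e_2 ^ i`, `i = 0, ..., t`, on which `F`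
is the multiplication by `q ^ i`. -/
def symF (q t : ℕ) : End ℂ (Fin (t + 1) → ℂ) where
  toFun c i := (q : ℂ) ^ (i : ℕ) * c i
  map_add' c d := by ext i; simp only [Pi.add_apply]; ring
  map_smul' a c := by ext i; simp only [Pi.smul_apply, smul_eq_mul, RingHom.id_apply]; ring

/-- The monodromy operator of `Sym ^ t H^1(E)`: the derivation with `N e_2 = e_1`, `N e_1 = 0`, so that
`N (e_1 ^ (t - i) e_2 ^ i) = i e_1 ^ (t - i + 1) e_2 ^ (i - 1)`. -/
def symN (t : ℕ) : End ℂ (Fin (t + 1) → ℂ) where
  toFun c i := if h : (i : ℕ) + 1 < t + 1 then (((i : ℕ) : ℂ) + 1) * c ⟨i + 1, h⟩ else 0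
  map_add' c d := by
    ext i
    simp only [Pi.add_apply]
    split_ifs with h
    · ring
    · simp
  map_smul' a c := by
    ext i
    simp only [Pi.smul_apply, smul_eq_mul, RingHom.id_apply]
    split_ifs with h
    · ring
    · simp

/-- Data of log `ℓ`-adic cohomology and of algebraic classes. -/
structure LogTheory where
  /-- the number of elements of the finite field `k` -/
  q : ℕ
  /-- the projective, vertical, log smooth fs log schemes over `s` with Zariski-local charts, of pure
  dimension -/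
  Obj : Type
  /-- the cohomology groups `H^m(X)`, coefficients extended to `ℂ` -/
  H : Obj → ℕ → Type
  [grp : ∀ X m, AddCommGroup (H X m)]
  [mod : ∀ X m, Module ℂ (H X m)]
  /-- the geometric Frobenius -/
  F : ∀ X m, End ℂ (H X m)
  /-- the monodromy operator -/
  N : ∀ X m, End ℂ (H X m)
  /-- the semisimple part of the action of the inertia group -/
  s : ∀ X m, End ℂ (H X m)
  /-- `Z` is constant of dimension `e`: it is `Z_0 × s` with `Z_0` smooth and projective over `k`, of
  pure dimension `e` -/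
  IsConst : Obj → ℕ → Prop
  /-- the linear span of the Chern classes in `H^(2 j)(X)` of the elements of `gr^j K_{0, lim}(X)` -/
  Alg : ∀ X j, Submodule ℂ (H X (2 * j))
  /-- `X × E ^ t` for the log Tate curve `E` -/
  powE : Obj → ℕ → Obj
  /-- the Künneth component `H^(m + t)(X × E ^ t)(m - r) → Hom(Sym ^ t H^1(E), H^m(X)(r))`, where
  `m = 2 r + t` -/
  kap : ∀ X r t, H (powE X t) (2 * (r + t)) →ₗ[ℂ] ((Fin (t + 1) → ℂ) →ₗ[ℂ] H X (2 * r + t))

attribute [instance] LogTheory.grp LogTheory.mod

variable (T : LogTheory)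

/-- `v` belongs to `V = H^m(X)(r)^G`. -/
def IsInv {X : T.Obj} {m : ℕ} (r : ℕ) (v : T.H X m) : Prop :=
  T.F X m v = (T.q : ℂ) ^ r • v ∧ T.N X m v = 0 ∧ T.s X m v = v

/-- `f` belongs to `W = Hom_G(Sym ^ t H^1(E), H^m(X)(r))`. -/
def IsHomSym {X : T.Obj} {m : ℕ} (r : ℕ) {t : ℕ} (f : (Fin (t + 1) → ℂ) →ₗ[ℂ] T.H X m) : Prop :=
  ∀ c, T.F X m (f c) = (T.q : ℂ) ^ r • f (symF T.q t c) ∧ T.N X m (f c) = f (symN t c) ∧
    T.s X m (f c) = f c

/-- The value of `f` at `e_1 ^ t`. -/
def ev {t : ℕ} {V : Type} [AddCommGroup V] [Module ℂ V] (f : (Fin (t + 1) → ℂ) →ₗ[ℂ] V) : V :=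
  f (Pi.single 0 1)

/-- The evaluation map `W → V` is surjective (`m = 2 r + t`). -/
def EvSurjective (X : T.Obj) (r t : ℕ) : Prop :=
  ∀ v : T.H X (2 * r + t), IsInv T r v → ∃ f, IsHomSym T r f ∧ ev (t := t) f = v

/-- The statement of the problem for `X` and `m = 2 r + t`: the map `φ` is surjective. (For negative
`r` one has `V = 0`, as the weights of `H^m(X)` are not negative.) -/
def PhiSurjective (X : T.Obj) (r t : ℕ) : Prop :=
  ∀ v : T.H X (2 * r + t), IsInv T r v → ∃ ξ ∈ T.Alg (T.powE X t) (r + t), ev (T.kap X r t ξ) = v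

/-- The log Tate conjecture for `X` in codimension `j`. -/
def LogTate (X : T.Obj) (j : ℕ) : Prop :=
  ∀ ξ : T.H X (2 * j), IsInv T j ξ → ξ ∈ T.Alg X j

/-- The weight-monodromy conjecture for `H^m(X)`: for all `t` the operator `N ^ t` is an isomorphism
of the part of weight `m + t` onto the part of weight `m - t`, that is, for all `α` of absolute value
`q ^ ((m + t) / 2)` an isomorphism of the generalised eigenspace of `F` for `α` onto that for `α / q ^ t`. -/
def WeightMonodromy (X : T.Obj) (m : ℕ) : Prop :=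
  ∀ (t : ℕ) (α : ℂ), ‖α‖ ^ 2 = (T.q : ℝ) ^ (m + t) →
    Set.BijOn (T.N X m ^ t) ((T.F X m).maxGenEigenspace α)
      ((T.F X m).maxGenEigenspace (α / (T.q : ℂ) ^ t))

/-- The generalised eigenspace for `α` of `F` is a subquotient of the direct sum of those of the
operators `φ l` on the spaces `A l`. -/
def IsSubquotient {ι : Type} (A : ι → Type) [∀ l, AddCommGroup (A l)] [∀ l, Module ℂ (A l)]
    (φ : ∀ l, End ℂ (A l)) {V : Type} [AddCommGroup V] [Module ℂ V] (F : End ℂ V) (α : ℂ) : Prop :=
  ∃ (C : Submodule ℂ (∀ l, A l)) (π : C →ₗ[ℂ] V),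
    (∀ c ∈ C, ∀ l, c l ∈ (φ l).maxGenEigenspace α) ∧
    (∀ c : C, ∃ c' : C, (∀ l, (c' : ∀ l, A l) l = φ l ((c : ∀ l, A l) l)) ∧ π c' = F (π c)) ∧
    F.maxGenEigenspace α ≤ LinearMap.range π

/-- The relations between `F`, `N` and `s`. -/
structure IsRep (T : LogTheory) : Prop where
  one_lt : 1 < T.q
  finite : ∀ X m, FiniteDimensional ℂ (T.H X m)
  frob_bijective : ∀ X m, Function.Bijective (T.F X m)
  /-- `N F = q F N` -/
  monodromy : ∀ X m x, T.N X m (T.F X m x) = (T.q : ℂ) • T.F X m (T.N X m x)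
  s_comm : ∀ X m x, T.s X m (T.N X m x) = T.N X m (T.s X m x)
  /-- `s F = F s ^ q` -/
  s_frob : ∀ X m x, T.s X m (T.F X m x) = T.F X m ((T.s X m ^ T.q) x)
  s_order : ∀ X m, ∃ e, 0 < e ∧ e.Coprime T.q ∧ T.s X m ^ e = 1

/-- Base change by a ramified covering `s' → s` of sufficiently divisible degree `c`, where `s'` is again
isomorphic to `s`: the cohomology does not change, the operator `N` is multiplied by `c`, and the
semisimple part of the action of inertia becomes trivial. -/
def Ramified (T : LogTheory) : Prop :=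
  ∀ X, ∃ X', ∀ m, ∃ (θ : T.H X' m ≃ₗ[ℂ] T.H X m) (c : ℂ), c ≠ 0 ∧
    (∀ x, θ (T.F X' m x) = T.F X m (θ x)) ∧ (∀ x, θ (T.N X' m x) = c • T.N X m (θ x)) ∧
    T.s X' m = 1

/-- The weight spectral sequence: each generalised eigenspace of the Frobenius on `H^m(X)` is a
subquotient of a direct sum of generalised eigenspaces on groups `H^b(Z)(-i)`, with `Z` smooth and
projective over `k` (intersections of components of the special fibre). -/
def Strata (T : LogTheory) : Prop :=
  ∀ X m α, ∃ (ι : Type) (_ : Fintype ι) (Z : ι → T.Obj) (e b i : ι → ℕ),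
    (∀ l, T.IsConst (Z l) (e l)) ∧
      IsSubquotient (fun l => T.H (Z l) (b l)) (fun l => (T.q : ℂ) ^ i l • T.F (Z l) (b l))
        (T.F X m) α

/-- `Hom(H^b(Z), H^m(X))(-e)` is a direct summand of `H^n(Y)`. -/
def IsSummand (T : LogTheory) (X Z Y : T.Obj) (e m b n : ℕ) : Prop :=
  ∃ (i : (T.H Z b →ₗ[ℂ] T.H X m) →ₗ[ℂ] T.H Y n) (p : T.H Y n →ₗ[ℂ] (T.H Z b →ₗ[ℂ] T.H X m)),
    (∀ g, p (i g) = g) ∧
    (∀ g g', (∀ z, g' (T.F Z b z) = (T.q : ℂ) ^ e • T.F X m (g z)) → T.F Y n (i g) = i g') ∧
    (∀ g, T.N Y n (i g) = i (T.N X m ∘ₗ g)) ∧ (∀ g, T.s Y n (i g) = i (T.s X m ∘ₗ g)) ∧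
    ∀ y, p (T.N Y n y) = T.N X m ∘ₗ p y

/-- The Künneth formula for `Y = X × Z`, `Z` constant of dimension `e`, and Poincaré duality for `Z`:
the space `Hom(H^b(Z), H^m(X))(-e) = H^m(X) ⊗ H^(2 e - b)(Z)` is a direct summand of `H^n(Y)`,
`n = m + 2 e - b`. -/
def Correspondences (T : LogTheory) : Prop :=
  ∀ X Z e, T.IsConst Z e → ∃ Y, ∀ m b n, n + b = m + 2 * e → IsSummand T X Z Y e m b n

/-- Poincaré duality between `H^m(X)` and `H^(m')(X)`, `X` of dimension `d`. -/
def IsDual (T : LogTheory) (X : T.Obj) (d m m' : ℕ) : Prop :=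
  ∃ B : T.H X m →ₗ[ℂ] T.H X m' →ₗ[ℂ] ℂ, Function.Bijective B.flip ∧
    (∀ x y, B (T.F X m x) (T.F X m' y) = (T.q : ℂ) ^ d * B x y) ∧
    ∀ x y, B (T.N X m x) y = - B x (T.N X m' y)

/-- The properties of log `ℓ`-adic cohomology that are used; all of them are known. -/
structure IsLogTheory (T : LogTheory) : Prop extends IsRep T where
  ramified : Ramified T
  /-- the theorem of Deligne for smooth projective schemes over `k` -/
  deligne : ∀ Z e, T.IsConst Z e → ∀ b α, (T.F Z b).HasEigenvalue α → ‖α‖ ^ 2 = (T.q : ℝ) ^ b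
  strata : Strata T
  correspondences : Correspondences T
  /-- Poincaré duality for `X`, of dimension `d` -/
  duality : ∀ X, ∃ d, (∀ m, 2 * d < m → ∀ x : T.H X m, x = 0) ∧
    ∀ m m', m + m' = 2 * d → IsDual T X d m m'
  /-- Chern classes are invariant -/
  alg_inv : ∀ X j ξ, ξ ∈ T.Alg X j → IsInv T j ξ
  /-- the Künneth component is equivariant -/
  kap_hom : ∀ X r t ξ, IsInv T (r + t) ξ → IsHomSym T r (T.kap X r t ξ)
  /-- it is the projection to a direct summand -/
  kap_onto : ∀ X r t f, IsHomSym T r f → ∃ ξ, IsInv T (r + t) ξ ∧ T.kap X r t ξ = f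
  /-- for `t = 0` one has `X × E ^ 0 = X` -/
  kap_zero : ∀ X r (v : T.H X (2 * r)),
    (∃ ξ ∈ T.Alg (T.powE X 0) (r + 0), ev (T.kap X r 0 ξ) = v) → v ∈ T.Alg X r

end

end Pool.Agent.N522.LT
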