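import Pool.Agent.N522.LT.Lin
import Pool.Agent.N522.LT.Defs

/-!
# The log Tate conjecture via powers of a log Tate curve and the weight-monodromy conjecture
-/

set_option autoImplicit false

namespace Pool.Agent.N522.LT

open Module

section Sym

theorem symN_single (t k : ℕ) (hk : k + 1 < t + 1) :
    symN t (Pi.single ⟨k + 1, hk⟩ 1) = ((k : ℂ) + 1) • Pi.single ⟨k, by omega⟩ 1 := by
  ext i
  simp only [symN, LinearMap.coe_mk, AddHom.coe_mk, Pi.smul_apply, smul_eq_mul]
  by_cases h : (i : ℕ) + 1 < t + 1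
  · rw [dif_pos h]
    by_cases hik : (i : ℕ) = k
    · have e1 : (⟨(i : ℕ) + 1, h⟩ : Fin (t + 1)) = ⟨k + 1, hk⟩ := by
        apply Fin.ext; simp [hik]
      have e2 : i = ⟨k, by omega⟩ := Fin.ext hik
      rw [e1, Pi.single_eq_same, e2, Pi.single_eq_same]
    · have e1 : (⟨(i : ℕ) + 1, h⟩ : Fin (t + 1)) ≠ ⟨k + 1, hk⟩ := by
        intro h'; apply hik; have := congrArg Fin.val h'; simpa using this
      have e2 : i ≠ ⟨k, by omega⟩ := fun h' => hik (congrArg Fin.val h')
      rw [Pi.single_eq_of_ne e1, Pi.single_eq_of_ne e2, mul_zero, mul_zero]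
  · rw [dif_neg h]
    have e2 : i ≠ ⟨k, by omega⟩ := fun h' => h (by have := congrArg Fin.val h'; simp at this; omega)
    rw [Pi.single_eq_of_ne e2, mul_zero]

variable {V : Type} [AddCommGroup V] [Module ℂ V]

theorem pow_N_single {N : End ℂ V} {t : ℕ} (f : (Fin (t + 1) → ℂ) →ₗ[ℂ] V)
    (hf : ∀ c, N (f c) = f (symN t c)) (k : ℕ) (hk : k < t + 1) :
    (N ^ k) (f (Pi.single ⟨k, hk⟩ 1)) = (k.factorial : ℂ) • f (Pi.single 0 1) := by
  induction k with
  | zero => simp
  | succ k ih =>
    rw [pow_succ, End.mul_apply, hf, symN_single, map_smul, map_smul, ih (by omega), smul_smul,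
      Nat.factorial_succ]
    push_cast
    ring_nf

end Sym

section Average

variable {V : Type} [AddCommGroup V] [Module ℂ V]

/-- the average over the powers of `s` -/
noncomputable def avg (s : End ℂ V) (e : ℕ) : End ℂ V :=
  (e : ℂ)⁻¹ • ∑ j ∈ Finset.range e, s ^ j

variable {s F : End ℂ V} {e q : ℕ}

theorem s_avg (he : s ^ e = 1) : s * avg s e = avg s e := by
  have h1 : s * ∑ j ∈ Finset.range e, s ^ j = ∑ j ∈ Finset.range e, s ^ j := by
    have h2 := Finset.sum_range_succ' (fun j => s ^ j) e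
    have h3 := Finset.sum_range_succ (fun j => s ^ j) e
    rw [h3, he, pow_zero] at h2
    have h4 := add_right_cancel h2
    rw [Finset.mul_sum]
    conv_rhs => rw [h4]
    exact Finset.sum_congr rfl fun j _ => (pow_succ' s j).symm
  rw [avg, mul_smul_comm, h1]

theorem avg_s (he : s ^ e = 1) : avg s e * s = avg s e := by
  have : avg s e * s = s * avg s e := by
    rw [avg, smul_mul_assoc, mul_smul_comm, Finset.sum_mul, Finset.mul_sum]
    congr 1
    exact Finset.sum_congr rfl fun j _ => by rw [← pow_succ, ← pow_succ']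
  rw [this, s_avg he]

theorem avg_of_fixed (h0 : 0 < e) {X : End ℂ V} (h : s * X = X) : avg s e * X = X := by
  have h1 : ∀ j : ℕ, s ^ j * X = X := by
    intro j
    induction j with
    | zero => rw [pow_zero, one_mul]
    | succ j ih => rw [pow_succ, mul_assoc, h, ih]
  rw [avg, smul_mul_assoc, Finset.sum_mul, Finset.sum_congr rfl fun j _ => h1 j,
    Finset.sum_const, Finset.card_range, ← Nat.cast_smul_eq_nsmul ℂ, smul_smul,
    inv_mul_cancel₀ (by exact_mod_cast h0.ne'), one_smul]

theorem avg_of_fixed' (h0 : 0 < e) {X : End ℂ V} (h : X * s = X) : X * avg s e = X := by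
  have h1 : ∀ j : ℕ, X * s ^ j = X := by
    intro j
    induction j with
    | zero => rw [pow_zero, mul_one]
    | succ j ih => rw [pow_succ, ← mul_assoc, ih, h]
  rw [avg, mul_smul_comm, Finset.mul_sum, Finset.sum_congr rfl fun j _ => h1 j,
    Finset.sum_const, Finset.card_range, ← Nat.cast_smul_eq_nsmul ℂ, smul_smul,
    inv_mul_cancel₀ (by exact_mod_cast h0.ne'), one_smul]

theorem avg_comm (h0 : 0 < e) (hc : e.Coprime q) (he : s ^ e = 1) (hs : s * F = F * s ^ q) :
    avg s e * F = F * avg s e := by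
  have hk : ∀ k : ℕ, s ^ k * F = F * s ^ (q * k) := by
    intro k
    induction k with
    | zero => simp
    | succ k ih => rw [pow_succ, mul_assoc, hs, ← mul_assoc, ih, mul_assoc, ← pow_add, Nat.mul_succ]
  have hsj : ∀ j : ℕ, s ^ j * avg s e = avg s e := by
    intro j
    induction j with
    | zero => rw [pow_zero, one_mul]
    | succ j ih => rw [pow_succ, mul_assoc, s_avg he, ih]
  have hjs : ∀ j : ℕ, avg s e * s ^ j = avg s e := by
    intro j
    induction j with
    | zero => rw [pow_zero, mul_one]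
    | succ j ih => rw [pow_succ, ← mul_assoc, ih, avg_s he]
  have h1 : avg s e * (F * avg s e) = F * avg s e :=
    avg_of_fixed h0 (by rw [← mul_assoc, hs, mul_assoc, hsj])
  have hphi : s ^ (q * q ^ (e.totient - 1)) = s := by
    have h2 : q * q ^ (e.totient - 1) = q ^ e.totient := by
      rw [← pow_succ', Nat.sub_add_cancel (Nat.totient_pos.2 h0)]
    rw [h2]
    have h3 : q ^ e.totient ≡ 1 [MOD e] := Nat.ModEq.pow_totient hc.symm
    have h4 : ∀ a b : ℕ, a ≡ b [MOD e] → s ^ a = s ^ b := by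
      intro a b hab
      rw [← Nat.div_add_mod a e, ← Nat.div_add_mod b e, pow_add, pow_add, pow_mul, pow_mul, he,
        one_pow, one_pow, hab]
    rw [h4 _ _ h3, pow_one]
  have h2 : avg s e * F * avg s e = avg s e * F := by
    refine avg_of_fixed' h0 ?_
    rw [mul_assoc, show F * s = s ^ (q ^ (e.totient - 1)) * F by rw [hk, hphi], ← mul_assoc, hjs]
  rw [← h2, mul_assoc, h1]

end Average

section Lemmas

variable {A : Type} [AddCommGroup A] [Module ℂ A] [FiniteDimensional ℂ A]

/-- A functional that detects a Jordan block. -/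
theorem exists_functional (n : End ℂ A) (k K : ℕ) (c : A) (h1 : (n ^ k) c ≠ 0)
    (h2 : (n ^ K) c = 0) :
    ∃ (f : A →ₗ[ℂ] ℂ) (x : A), (∀ a, f ((n ^ (k + 1)) a) = 0) ∧ f ((n ^ k) x) = 1 := by
  by_cases hle : LinearMap.range (n ^ k) ≤ LinearMap.range (n ^ (k + 1))
  · exfalso
    -- `n` is surjective on the range of `n ^ k`, hence injective
    have hmap : ∀ y ∈ LinearMap.range (n ^ k), n y ∈ LinearMap.range (n ^ k) := by
      rintro _ ⟨a, rfl⟩
      exact ⟨n a, by rw [← End.mul_apply, ← End.mul_apply, ← pow_succ, ← pow_succ']⟩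
    let n' : LinearMap.range (n ^ k) →ₗ[ℂ] LinearMap.range (n ^ k) := n.restrict hmap
    have hsurj : Function.Surjective n' := by
      rintro ⟨y, hy⟩
      obtain ⟨a, ha⟩ := hle hy
      refine ⟨⟨(n ^ k) a, a, rfl⟩, Subtype.ext ?_⟩
      change n ((n ^ k) a) = y
      rw [← End.mul_apply, ← pow_succ', ha]
    have hinj : Function.Injective n' := LinearMap.injective_iff_surjective.2 hsurj
    have h3 : ∀ (j : ℕ) (y : A), y ∈ LinearMap.range (n ^ k) → (n ^ j) y = 0 → y = 0 := by
      intro j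
      induction j with
      | zero => intro y _ h; simpa using h
      | succ j ih =>
        intro y hy h
        rw [pow_succ, End.mul_apply] at h
        have h4 := ih (n y) (hmap y hy) h
        have h5 : n' ⟨y, hy⟩ = 0 := Subtype.ext h4
        have h6 := hinj (h5.trans (map_zero n').symm)
        exact congrArg Subtype.val h6
    refine h1 (h3 K _ ⟨c, rfl⟩ ?_)
    rw [← End.mul_apply, ← pow_add, add_comm, pow_add, End.mul_apply, h2, map_zero]
  · obtain ⟨y, hy, hy2⟩ := Set.not_subset.1 hle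
    obtain ⟨x, rfl⟩ := hy
    obtain ⟨f, hf, hf2⟩ := Submodule.exists_le_ker_of_notMem hy2
    refine ⟨(f ((n ^ k) x))⁻¹ • f, x, fun a => ?_, ?_⟩
    · rw [LinearMap.smul_apply, show f ((n ^ (k + 1)) a) = 0 from
        hf2 (LinearMap.mem_range_self _ a), smul_zero]
    · rw [LinearMap.smul_apply, smul_eq_mul, inv_mul_cancel₀ hf]

variable {V : Type} [AddCommGroup V] [Module ℂ V]

/-- The equivariant map attached to a functional. -/
noncomputable def eqv (n : End ℂ A) (ν : End ℂ V) (k : ℕ) (f : A →ₗ[ℂ] ℂ) (x : V) : A →ₗ[ℂ] V :=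
  ∑ j ∈ Finset.range (k + 1), (f ∘ₗ (n ^ j : End ℂ A)).smulRight ((ν ^ (k - j)) x)

omit [FiniteDimensional ℂ A] in
theorem eqv_apply (n : End ℂ A) (ν : End ℂ V) (k : ℕ) (f : A →ₗ[ℂ] ℂ) (x : V) (a : A) :
    eqv n ν k f x a = ∑ j ∈ Finset.range (k + 1), f ((n ^ j) a) • (ν ^ (k - j)) x := by
  simp [eqv, LinearMap.sum_apply]

omit [FiniteDimensional ℂ A] in
theorem eqv_comm (n : End ℂ A) (ν : End ℂ V) (k : ℕ) (f : A →ₗ[ℂ] ℂ) (x : V)
    (hf : ∀ a, f ((n ^ (k + 1)) a) = 0) (hx : (ν ^ (k + 1)) x = 0) (a : A) :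
    eqv n ν k f x (n a) = ν (eqv n ν k f x a) := by
  rw [eqv_apply, eqv_apply, map_sum]
  have h1 : ∀ j ∈ Finset.range (k + 1), f ((n ^ j) (n a)) • (ν ^ (k - j)) x =
      f ((n ^ (j + 1)) a) • (ν ^ (k + 1 - (j + 1))) x := by
    intro j _
    rw [pow_succ n j, End.mul_apply, Nat.add_sub_add_right]
  have h2 : ∀ j ∈ Finset.range (k + 1), ν (f ((n ^ j) a) • (ν ^ (k - j)) x) =
      f ((n ^ j) a) • (ν ^ (k + 1 - j)) x := by
    intro j hj
    rw [Finset.mem_range] at hj
    rw [map_smul, ← End.mul_apply, ← pow_succ', show k - j + 1 = k + 1 - j by omega]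
  rw [Finset.sum_congr rfl h1, Finset.sum_congr rfl h2, ← sub_eq_zero, ← Finset.sum_sub_distrib]
  rw [Finset.sum_range_sub (fun j => f ((n ^ j) a) • (ν ^ (k + 1 - j)) x)]
  rw [hf, zero_smul, Nat.sub_zero, hx, smul_zero, sub_zero]

end Lemmas

variable {T : LogTheory} (hT : IsLogTheory T)

include hT

theorem q_ne : (T.q : ℂ) ≠ 0 := by
  have := hT.one_lt
  exact_mod_cast (by omega : T.q ≠ 0)

theorem ev_of_mw_aux {X : T.Obj} {r t m : ℕ} (hm : m = 2 * r + t) (hX : WeightMonodromy T X m)
    (v : T.H X m) (hv : IsInv T r v) : ∃ f, IsHomSym T r f ∧ ev (t := t) f = v := by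
  obtain ⟨hv1, hv2, hv3⟩ := hv
  have hq0 := q_ne hT
  set α : ℂ := (T.q : ℂ) ^ (r + t) with hα
  have hnorm : ‖α‖ ^ 2 = (T.q : ℝ) ^ (m + t) := by
    rw [hα, norm_pow, Complex.norm_natCast, ← pow_mul, hm]
    congr 1; ring
  have hdiv : α / (T.q : ℂ) ^ t = (T.q : ℂ) ^ r := by
    rw [hα, pow_add, mul_div_assoc, div_self (pow_ne_zero t hq0), mul_one]
  have hb := hX t α hnorm
  have hvg : v ∈ (T.F X m).maxGenEigenspace (α / (T.q : ℂ) ^ t) := by
    rw [End.mem_maxGenEigenspace]
    refine ⟨1, ?_⟩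
    rw [pow_one, LinearMap.sub_apply, LinearMap.smul_apply, End.one_apply, hdiv, hv1, sub_self]
  obtain ⟨y, hy, hyv⟩ := hb.surjOn hvg
  have hNF : ∀ (k : ℕ) (x : T.H X m), (T.N X m ^ k) (T.F X m x) =
      (T.q : ℂ) ^ k • T.F X m ((T.N X m ^ k) x) := by
    intro k
    induction k with
    | zero => intro x; simp
    | succ k ih =>
      intro x
      rw [pow_succ, End.mul_apply, hT.monodromy, map_smul, ih, smul_smul, End.mul_apply,
        ← pow_succ']
  have hFy : T.F X m y = α • y := by
    refine hb.injOn ?_ (Submodule.smul_mem _ _ hy) ?_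
    · have h1 : Set.MapsTo (T.F X m) ((T.F X m).maxGenEigenspace α)
          ((T.F X m).maxGenEigenspace α) := by
        intro z hz
        change z ∈ (T.F X m).maxGenEigenspace α at hz
        change T.F X m z ∈ (T.F X m).maxGenEigenspace α
        rw [End.mem_maxGenEigenspace] at hz ⊢
        obtain ⟨k, hk⟩ := hz
        refine ⟨k, ?_⟩
        have hc : Commute ((T.F X m - α • (1 : End ℂ (T.H X m))) ^ k) (T.F X m) :=
          ((Commute.refl _).sub_left ((Commute.one_left _).smul_left α)).pow_left k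
        rw [← End.mul_apply, hc.eq, End.mul_apply, hk, map_zero]
      exact h1 hy
    · rw [hNF, hyv, hv1, map_smul, hyv, smul_smul, hα, ← pow_add, add_comm]
  obtain ⟨e, he0, hec, he⟩ := hT.s_order X m
  have hsF : T.s X m * T.F X m = T.F X m * T.s X m ^ T.q := LinearMap.ext fun x => hT.s_frob X m x
  set y' := avg (T.s X m) e y with hy'
  have hsj : ∀ j : ℕ, (T.s X m ^ j) v = v := by
    intro j
    induction j with
    | zero => simp
    | succ j ih => rw [pow_succ, End.mul_apply, hv3, ih]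
  have hsN : ∀ (j : ℕ), Commute (T.s X m ^ j) (T.N X m) := by
    intro j
    have : Commute (T.s X m) (T.N X m) := LinearMap.ext fun x => hT.s_comm X m x
    exact this.pow_left j
  have hNav : Commute (avg (T.s X m) e) (T.N X m) := by
    rw [avg]
    exact (Commute.sum_left _ _ _ fun j _ => hsN j).smul_left _
  have havv : avg (T.s X m) e v = v := by
    rw [avg, LinearMap.smul_apply, LinearMap.sum_apply, Finset.sum_congr rfl fun j _ => hsj j,
      Finset.sum_const, Finset.card_range, ← Nat.cast_smul_eq_nsmul ℂ, smul_smul,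
      inv_mul_cancel₀ (by exact_mod_cast he0.ne'), one_smul]
  have hy1 : (T.N X m ^ t) y' = v := by
    rw [hy', ← End.mul_apply, ← (hNav.pow_right t).eq, End.mul_apply, hyv, havv]
  have hy2 : T.F X m y' = α • y' := by
    rw [hy', ← End.mul_apply, ← avg_comm he0 hec he hsF, End.mul_apply, hFy, map_smul]
  have hy3 : T.s X m y' = y' := by
    rw [hy', ← End.mul_apply, s_avg he]
  -- the homomorphism
  obtain ⟨u, hu⟩ : ∃ u : Fin (t + 1) → T.H X m,
      ∀ i, u i = ((i : ℕ).factorial : ℂ) • (T.N X m ^ (t - i)) y' := ⟨_, fun i => rfl⟩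
  have hsu : ∀ i, T.s X m (u i) = u i := by
    intro i
    have hc : Commute (T.s X m) (T.N X m) := LinearMap.ext fun x => hT.s_comm X m x
    rw [hu, map_smul, ← End.mul_apply, (hc.pow_right _).eq, End.mul_apply, hy3]
  have hFu : ∀ i : Fin (t + 1), T.F X m (u i) = (T.q : ℂ) ^ (r + i) • u i := by
    intro i
    have hi : (i : ℕ) ≤ t := Nat.lt_succ_iff.1 i.2
    have h1 := hNF (t - i) y'
    rw [hy2, map_smul] at h1
    have h2 : T.F X m ((T.N X m ^ (t - i)) y') =
        ((T.q : ℂ) ^ (t - (i : ℕ)))⁻¹ • α • (T.N X m ^ (t - i)) y' := by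
      rw [h1, smul_smul, inv_mul_cancel₀ (pow_ne_zero _ hq0), one_smul]
    have h3 : ((T.q : ℂ) ^ (t - (i : ℕ)))⁻¹ * α = (T.q : ℂ) ^ (r + i) := by
      rw [hα, show r + t = (r + i) + (t - i) by omega, pow_add _ (r + (i : ℕ)) (t - i)]
      field_simp
    rw [hu, map_smul, h2, smul_smul ((T.q : ℂ) ^ (t - (i : ℕ)))⁻¹ α, h3, smul_comm]
  have hu0 : u 0 = v := by
    rw [hu]
    simp [hy1]
  have hNu : ∀ i : Fin t, T.N X m (u i.succ) = (((i : ℕ) : ℂ) + 1) • u i.castSucc := by
    intro i
    rw [hu, hu, map_smul, ← End.mul_apply, ← pow_succ', Fin.val_succ, Fin.val_castSucc,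
      show t - ((i : ℕ) + 1) + 1 = t - i by omega, smul_smul, Nat.factorial_succ]
    push_cast
    rfl
  refine ⟨Fintype.linearCombination ℂ u, ?_, ?_⟩
  · intro c
    refine ⟨?_, ?_, ?_⟩
    · rw [Fintype.linearCombination_apply, Fintype.linearCombination_apply, map_sum,
        Finset.smul_sum]
      refine Finset.sum_congr rfl fun i _ => ?_
      have e1 : symF T.q t c i = (T.q : ℂ) ^ (i : ℕ) * c i := rfl
      rw [map_smul, hFu, smul_smul, smul_smul, e1, pow_add]
      congr 1
      ring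
    · rw [Fintype.linearCombination_apply, Fintype.linearCombination_apply, map_sum,
        Fin.sum_univ_succ, Fin.sum_univ_castSucc]
      have h0 : T.N X m (c 0 • u 0) = 0 := by
        rw [hu0, map_smul, hv2, smul_zero]
      have hl : symN t c (Fin.last t) • u (Fin.last t) = 0 := by
        have : symN t c (Fin.last t) = 0 := by
          simp [symN]
        rw [this, zero_smul]
      rw [h0, hl, zero_add, add_zero]
      refine Finset.sum_congr rfl fun i _ => ?_
      have h1 : symN t c i.castSucc = (((i : ℕ) : ℂ) + 1) * c i.succ := by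
        simp only [symN, LinearMap.coe_mk, AddHom.coe_mk, Fin.val_castSucc]
        rw [dif_pos (by omega)]
        rfl
      rw [h1, map_smul, hNu, smul_smul, mul_comm]
    · rw [Fintype.linearCombination_apply, map_sum]
      exact Finset.sum_congr rfl fun i _ => by rw [map_smul, hsu]
  · rw [ev, Fintype.linearCombination_apply_single, one_smul, hu0]

/-- Weight-monodromy implies that the evaluation map is surjective. -/
theorem ev_of_mw {X : T.Obj} {r t : ℕ} (hX : WeightMonodromy T X (2 * r + t)) :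
    EvSurjective T X r t :=
  fun v hv => ev_of_mw_aux hT rfl hX v hv

/-- Statement (A) for objects with unipotent monodromy. -/
theorem propA_of_ev (hEv : ∀ X r t, EvSurjective T X r t) (X : T.Obj) (hs : ∀ m, T.s X m = 1)
    (m : ℕ) : PropA (T.F X m) (T.N X m) T.q m := by
  have hq0 := q_ne hT
  have hq1 : (1 : ℝ) < T.q := by exact_mod_cast hT.one_lt
  intro t α x hα hx hNx
  set β := α / (T.q : ℂ) ^ t with hβ
  set ν : End ℂ (T.H X m) := T.F X m - β • (1 : End ℂ (T.H X m)) with hν
  have hβn : ‖β‖ ^ 2 * (T.q : ℝ) ^ (2 * t) = (T.q : ℝ) ^ (m + t) := by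
    rw [hβ, norm_div, norm_pow, Complex.norm_natCast, div_pow, hα]
    field_simp
    ring
  have hNν : ∀ y, T.N X m y = 0 → T.N X m (ν y) = 0 := by
    intro y hy
    rw [hν, LinearMap.sub_apply, LinearMap.smul_apply, End.one_apply, map_sub, map_smul,
      hT.monodromy, hy, map_zero, smul_zero, smul_zero, sub_zero]
  have hNνj : ∀ (j : ℕ) y, T.N X m y = 0 → T.N X m ((ν ^ j) y) = 0 := by
    intro j
    induction j with
    | zero => intro y hy; simpa using hy
    | succ j ih => intro y hy; rw [pow_succ, End.mul_apply]; exact ih _ (hNν y hy)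
  have key : ∀ (k : ℕ) (x : T.H X m), (ν ^ k) x = 0 → T.N X m x = 0 →
      x ∈ LinearMap.range (T.N X m ^ t) := by
    intro k
    induction k with
    | zero =>
      intro x hx _
      have : x = 0 := by simpa using hx
      rw [this]; exact Submodule.zero_mem _
    | succ k ih =>
      intro x hx hNx
      by_cases hk : (ν ^ k) x = 0
      · exact ih x hk hNx
      have hj : ∀ j, 0 < j → (ν ^ j) x ∈ LinearMap.range (T.N X m ^ t) := by
        intro j hj
        refine ih _ ?_ (hNνj j x hNx)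
        rw [← End.mul_apply, ← pow_add, show k + j = (j - 1) + (k + 1) by omega, pow_add,
          End.mul_apply, hx, map_zero]
      obtain ⟨ι, _, Z, e, b, i, hZ, C, π, hC1, hC2, hC3⟩ := hT.strata X m β
      have hxg : x ∈ (T.F X m).maxGenEigenspace β := by
        rw [End.mem_maxGenEigenspace]; exact ⟨k + 1, hx⟩
      obtain ⟨c, hc⟩ := hC3 hxg
      let φ : ∀ l, End ℂ (T.H (Z l) (b l)) := fun l => (T.q : ℂ) ^ i l • T.F (Z l) (b l)
      let n : ∀ l, End ℂ (T.H (Z l) (b l)) := fun l => φ l - β • (1 : End ℂ _)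
      have hpow : ∀ (j : ℕ) (c : C), ∃ c' : C,
          (∀ l, (c' : ∀ l, T.H (Z l) (b l)) l = (n l ^ j) ((c : ∀ l, T.H (Z l) (b l)) l)) ∧
            π c' = (ν ^ j) (π c) := by
        intro j
        induction j with
        | zero => intro c; exact ⟨c, fun l => by simp, by simp⟩
        | succ j ihj =>
          intro c
          obtain ⟨c1, h1, h2⟩ := hC2 c
          obtain ⟨c2, h3, h4⟩ := ihj (c1 - β • c)
          refine ⟨c2, fun l => ?_, ?_⟩
          · rw [h3, pow_succ, End.mul_apply]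
            congr 1
            change (c1 : ∀ l, T.H (Z l) (b l)) l - β • (c : ∀ l, T.H (Z l) (b l)) l = _
            rw [h1]
            rfl
          · rw [h4, pow_succ, End.mul_apply]
            congr 1
            rw [map_sub, map_smul, h2]
            rfl
      obtain ⟨c', hc'1, hc'2⟩ := hpow k c
      have hne : ∃ l, (n l ^ k) ((c : ∀ l, T.H (Z l) (b l)) l) ≠ 0 := by
        by_contra hall
        push Not at hall
        apply hk
        rw [← hc, ← hc'2]
        have : c' = 0 := by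
          apply Subtype.ext
          funext l
          rw [hc'1 l, hall l]; rfl
        rw [this, map_zero]
      obtain ⟨l, hl⟩ := hne
      have hcl := hC1 c c.2 l
      rw [End.mem_maxGenEigenspace] at hcl
      obtain ⟨K, hK⟩ := hcl
      have := hT.finite (Z l) (b l)
      have := hT.finite X m
      obtain ⟨f, x0, hf, hf1⟩ := exists_functional (n l) k K _ hl hK
      -- the eigenvalue and the degree
      have hev : (T.F (Z l) (b l)).HasEigenvalue (β / (T.q : ℂ) ^ i l) := by
        have h1 : (φ l).HasEigenvalue β := by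
          refine eigen_of_gen (x := (c : ∀ l, T.H (Z l) (b l)) l) ?_ ?_
          · rw [End.mem_maxGenEigenspace]; exact ⟨K, hK⟩
          · intro h0
            exact hl (by rw [h0, map_zero])
        obtain ⟨w, hw⟩ := h1.exists_hasEigenvector
        refine End.hasEigenvalue_of_hasEigenvector (x := w) ⟨?_, hw.2⟩
        rw [End.mem_eigenspace_iff]
        have h2 : (T.q : ℂ) ^ i l • T.F (Z l) (b l) w = β • w := hw.apply_eq_smul
        rw [div_eq_inv_mul, ← smul_smul, ← h2, smul_smul, inv_mul_cancel₀ (pow_ne_zero _ hq0),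
          one_smul]
      have hdeg : b l + 2 * i l + t = m := by
        have h1 := hT.deligne (Z l) (e l) (hZ l) (b l) _ hev
        rw [norm_div, norm_pow, Complex.norm_natCast, div_pow,
          div_eq_iff (pow_ne_zero 2 (pow_ne_zero _ (by positivity))), ← pow_mul, ← pow_add] at h1
        rw [h1, ← pow_add] at hβn
        have h2 := pow_right_injective₀ (by positivity : (0 : ℝ) < T.q) hq1.ne' hβn
        omega
      let g : T.H (Z l) (b l) →ₗ[ℂ] T.H X m := eqv (n l) ν k f x
      have hgn : ∀ a, g (n l a) = ν (g a) := eqv_comm (n l) ν k f x hf hx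
      have hgF : ∀ a, g ((T.q : ℂ) ^ i l • T.F (Z l) (b l) a) = T.F X m (g a) := by
        intro a
        have h1 := hgn a
        have h2 : n l a = (T.q : ℂ) ^ i l • T.F (Z l) (b l) a - β • a := rfl
        have h3 : ν (g a) = T.F X m (g a) - β • g a := rfl
        rw [h2, h3, map_sub, map_smul g β a] at h1
        exact sub_left_injective h1
      have hNg : T.N X m ∘ₗ g = 0 := by
        ext a
        change T.N X m (g a) = 0
        rw [show g a = _ from eqv_apply (n l) ν k f x a, map_sum]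
        exact Finset.sum_eq_zero fun j _ => by rw [map_smul, hNνj _ x hNx, smul_zero]
      obtain ⟨Y, hY⟩ := hT.correspondences X (Z l) (e l) (hZ l)
      obtain ⟨I, P, h1, h2, h3, h4, h5⟩ := hY m (b l) (2 * (e l + i l) + t) (by omega)
      have hinv : IsInv T (e l + i l) (I g) := by
        refine ⟨?_, ?_, ?_⟩
        · rw [h2 g ((T.q : ℂ) ^ (e l + i l) • g), map_smul]
          intro z
          rw [LinearMap.smul_apply, ← hgF, map_smul, smul_smul, ← pow_add]
        · rw [h3, hNg, map_zero]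
        · rw [h4, hs m]
          congr 1
      obtain ⟨w, hw, hw2⟩ := hEv Y (e l + i l) t (I g) hinv
      have h6 := pow_N_single w (fun c => (hw c).2.1) t (Nat.lt_succ_self t)
      rw [show w (Pi.single 0 1) = I g from hw2] at h6
      have h7 : ∀ (j : ℕ) y, P ((T.N Y _ ^ j) y) = (T.N X m ^ j : End ℂ _) ∘ₗ P y := by
        intro j
        induction j with
        | zero => intro y; rfl
        | succ j ihj =>
          intro y
          rw [pow_succ, End.mul_apply, ihj, h5, pow_succ]
          rfl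
      have h8 := h7 t (w (Pi.single ⟨t, Nat.lt_succ_self t⟩ 1))
      rw [h6, map_smul, h1] at h8
      have h9 : g x0 ∈ LinearMap.range (T.N X m ^ t) := by
        have h10 := LinearMap.congr_fun h8 x0
        refine ⟨((t.factorial : ℂ))⁻¹ • P (w (Pi.single ⟨t, Nat.lt_succ_self t⟩ 1)) x0, ?_⟩
        have h11 : (T.N X m ^ t) (P (w (Pi.single ⟨t, Nat.lt_succ_self t⟩ 1)) x0) =
          (t.factorial : ℂ) • g x0 := h10.symm
        rw [map_smul, h11, smul_smul, inv_mul_cancel₀ (by exact_mod_cast t.factorial_ne_zero),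
          one_smul]
      have h10 : g x0 = (∑ j ∈ Finset.range k, f ((n l ^ j) x0) • (ν ^ (k - j)) x) + x := by
        rw [show g x0 = _ from eqv_apply (n l) ν k f x x0, Finset.sum_range_succ, hf1, one_smul,
          Nat.sub_self, pow_zero, End.one_apply]
      have h11 : x = g x0 - ∑ j ∈ Finset.range k, f ((n l ^ j) x0) • (ν ^ (k - j)) x := by
        rw [h10]; abel
      rw [h11]
      refine Submodule.sub_mem _ h9 (Submodule.sum_mem _ fun j hj' => Submodule.smul_mem _ _ ?_)
      rw [Finset.mem_range] at hj'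
      exact hj (k - j) (by omega)
  rw [End.mem_maxGenEigenspace] at hx
  obtain ⟨k, hk⟩ := hx
  obtain ⟨y, hy⟩ := key k x hk hNx
  exact ⟨y, hy⟩

/-- The weight-monodromy conjecture for objects with unipotent monodromy. -/
theorem mw_unipotent (hEv : ∀ X r t, EvSurjective T X r t) (X : T.Obj) (hs : ∀ m, T.s X m = 1)
    (m : ℕ) : WeightMonodromy T X m := by
  have := hT.finite X m
  obtain ⟨d, hd0, hd⟩ := hT.duality X
  have hA := propA_of_ev hT hEv X hs m
  have hB : PropB (T.F X m) (T.N X m) T.q m := by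
    by_cases hm : m ≤ 2 * d
    · obtain ⟨B, hB1, hB2, hB3⟩ := hd m (2 * d - m) (by omega)
      have := hT.finite X (2 * d - m)
      exact propB_of_dual hT.one_lt (by omega) B hB1 hB2 hB3 (hT.monodromy X _)
        (propA_of_ev hT hEv X hs _)
    · intro t α x _ _ _
      exact ⟨0, by rw [hd0 m (by omega) x, map_zero]⟩
  exact mw_of_AB hT.one_lt (hT.frob_bijective X m).1 (hT.monodromy X m) hA hB

theorem mw_of_ev (hEv : ∀ X r t, EvSurjective T X r t) (X : T.Obj) (m : ℕ) :
    WeightMonodromy T X m := by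
  obtain ⟨X', hX'⟩ := hT.ramified X
  have h := mw_unipotent hT hEv X' (fun m => (hX' m).choose_spec.choose_spec.2.2.2) m
  obtain ⟨θ, c, hc, hF, hN, _⟩ := hX' m
  have hFk : ∀ (β : ℂ) (k : ℕ) (x : T.H X' m),
      θ (((T.F X' m - β • (1 : End ℂ (T.H X' m))) ^ k) x) =
        ((T.F X m - β • (1 : End ℂ (T.H X m))) ^ k) (θ x) := by
    intro β k
    induction k with
    | zero => intro x; simp
    | succ k ih =>
      intro x
      rw [pow_succ, End.mul_apply, ih, pow_succ, End.mul_apply, LinearMap.sub_apply,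
        LinearMap.sub_apply, map_sub, hF, LinearMap.smul_apply, LinearMap.smul_apply,
        End.one_apply, End.one_apply, map_smul]
  have hgen : ∀ β x, θ x ∈ (T.F X m).maxGenEigenspace β ↔ x ∈ (T.F X' m).maxGenEigenspace β := by
    intro β x
    rw [End.mem_maxGenEigenspace, End.mem_maxGenEigenspace]
    refine exists_congr fun k => ?_
    rw [← hFk, map_eq_zero_iff θ θ.injective]
  have hNk : ∀ (k : ℕ) x, θ ((T.N X' m ^ k) x) = c ^ k • (T.N X m ^ k) (θ x) := by
    intro k
    induction k with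
    | zero => intro x; simp
    | succ k ih =>
      intro x
      rw [pow_succ, End.mul_apply, ih, hN, map_smul, smul_smul, ← pow_succ, ← End.mul_apply,
        ← pow_succ]
  intro t α hα
  obtain ⟨h1, h2, h3⟩ := h t α hα
  have hN' : ∀ x, (T.N X m ^ t) x = (c ^ t)⁻¹ • θ ((T.N X' m ^ t) (θ.symm x)) := by
    intro x
    rw [hNk, θ.apply_symm_apply, smul_smul, inv_mul_cancel₀ (pow_ne_zero t hc), one_smul]
  have hmem : ∀ β x, x ∈ (T.F X m).maxGenEigenspace β ↔
      θ.symm x ∈ (T.F X' m).maxGenEigenspace β := by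
    intro β x
    rw [← hgen, θ.apply_symm_apply]
  refine ⟨fun x hx => ?_, fun x hx y hy hxy => ?_, fun z hz => ?_⟩
  · change (T.N X m ^ t) x ∈ (T.F X m).maxGenEigenspace _
    rw [hN']
    exact Submodule.smul_mem _ _ ((hgen _ _).2 (h1 ((hmem _ _).1 hx)))
  · change (T.N X m ^ t) x = (T.N X m ^ t) y at hxy
    rw [hN', hN'] at hxy
    have h4 := smul_right_injective _ (inv_ne_zero (pow_ne_zero t hc)) hxy
    have h5 := h2 ((hmem _ _).1 hx) ((hmem _ _).1 hy) (θ.injective h4)
    exact θ.symm.injective h5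
  · have hz' : c ^ t • θ.symm z ∈ (T.F X' m).maxGenEigenspace (α / (T.q : ℂ) ^ t) :=
      Submodule.smul_mem _ _ ((hmem _ _).1 hz)
    obtain ⟨y, hy, hyz⟩ := h3 hz'
    refine ⟨θ y, (hgen _ _).2 hy, ?_⟩
    rw [hN', θ.symm_apply_apply, hyz, map_smul, θ.apply_symm_apply, smul_smul,
      inv_mul_cancel₀ (pow_ne_zero t hc), one_smul]

theorem phi_of (X : T.Obj) (r t : ℕ) (h1 : LogTate T (T.powE X t) (r + t))
    (h2 : EvSurjective T X r t) : PhiSurjective T X r t := by
  intro v hv
  obtain ⟨f, hf, hfv⟩ := h2 v hv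
  obtain ⟨ξ, hξ, hξf⟩ := hT.kap_onto X r t f hf
  exact ⟨ξ, h1 ξ hξ, by rw [hξf, hfv]⟩

theorem ev_of_phi (X : T.Obj) (r t : ℕ) (h : PhiSurjective T X r t) : EvSurjective T X r t := by
  intro v hv
  obtain ⟨ξ, hξ, hξv⟩ := h v hv
  exact ⟨_, hT.kap_hom X r t ξ (hT.alg_inv _ _ ξ hξ), hξv⟩

theorem main :
    ((∀ X r t, EvSurjective T X r t) ↔ ∀ X m, WeightMonodromy T X m) ∧
    ((∀ X r t, PhiSurjective T X r t) ↔
      (∀ X j, LogTate T X j) ∧ ∀ X m, WeightMonodromy T X m) := by
  refine ⟨⟨fun h X m => mw_of_ev hT h X m, fun h X r t => ev_of_mw hT (h X _)⟩,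
    fun h => ⟨fun X j ξ hξ => ?_, ?_⟩, ?_⟩
  · exact hT.kap_zero X j ξ (h X j 0 ξ hξ)
  · exact fun X m => mw_of_ev hT (fun X r t => ev_of_phi hT X r t (h X r t)) X m
  · rintro ⟨h1, h2⟩ X r t
    exact phi_of hT X r t (h1 _ _) (ev_of_mw hT (h2 X _))

end Pool.Agent.N522.LT
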